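import Mathlib

/-!
# Separation of residues modulo a prime number
-/

set_option autoImplicit false

namespace Pool.Agent.U222.HD.Ari

/-- Thue's lemma. -/
lemma thue {p : ℕ} (hp : p.Prime) {q q' : ℤ} (hq : ¬ (p : ℤ) ∣ q) (hq' : ¬ (p : ℤ) ∣ q') :
    ∃ x y : ℤ, 0 < x ∧ y ≠ 0 ∧ x ^ 2 < p ∧ y ^ 2 < p ∧ (p : ℤ) ∣ y * q - x * q' := by
  haveI : Fact p.Prime := ⟨hp⟩
  set s := Nat.sqrt p with hs
  have hs1 : p < (s + 1) * (s + 1) := Nat.lt_succ_sqrt p
  have hs2 : s * s < p := by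
    refine lt_of_le_of_ne (Nat.sqrt_le p) fun h => ?_
    have h1 : s ∣ p := ⟨s, h.symm⟩
    rcases (Nat.dvd_prime hp).1 h1 with h2 | h2
    · rw [h2] at h
      exact hp.one_lt.ne h
    · rw [h2] at h
      have h3 := hp.one_lt
      nlinarith
  have hcard : Fintype.card (ZMod p) < Fintype.card (Fin (s + 1) × Fin (s + 1)) := by
    rw [ZMod.card, Fintype.card_prod, Fintype.card_fin]
    exact hs1
  obtain ⟨⟨x1, y1⟩, ⟨x2, y2⟩, hne, heq⟩ := Fintype.exists_ne_map_eq_of_card_lt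
    (fun z : Fin (s + 1) × Fin (s + 1) => ((z.2 : ℕ) : ZMod p) * q - ((z.1 : ℕ) : ZMod p) * q') hcard
  set X : ℤ := (x1 : ℕ) - (x2 : ℕ) with hX
  set Y : ℤ := (y1 : ℕ) - (y2 : ℕ) with hY
  have hdvd : (p : ℤ) ∣ Y * q - X * q' := by
    rw [← ZMod.intCast_zmod_eq_zero_iff_dvd]
    have h1 : ((Y * q - X * q' : ℤ) : ZMod p) =
        (((y1 : ℕ) : ZMod p) * q - ((x1 : ℕ) : ZMod p) * q') -
          (((y2 : ℕ) : ZMod p) * q - ((x2 : ℕ) : ZMod p) * q') := by
      rw [hX, hY]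
      push_cast
      ring
    rw [h1]
    exact sub_eq_zero.2 heq
  have hXs : |X| ≤ s := by
    rw [abs_le]
    have h1 := x1.2
    have h2 := x2.2
    constructor <;> omega
  have hYs : |Y| ≤ s := by
    rw [abs_le]
    have h1 := y1.2
    have h2 := y2.2
    constructor <;> omega
  have hsp : (s : ℤ) < p := by
    have h1 : s < p := by
      rcases Nat.eq_zero_or_pos s with h | h
      · rw [h]; exact hp.pos
      · nlinarith
    exact_mod_cast h1
  have hpi : Prime (p : ℤ) := Nat.prime_iff_prime_int.1 hp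
  have hsmall : ∀ z : ℤ, |z| ≤ s → (p : ℤ) ∣ z → z = 0 := fun z hz hd =>
    Int.eq_zero_of_abs_lt_dvd hd (lt_of_le_of_lt hz hsp)
  have hsq : ∀ z : ℤ, |z| ≤ s → z ^ 2 < p := by
    intro z hz
    have h1 : z ^ 2 = |z| * |z| := by rw [abs_mul_abs_self, sq]
    have h2 : |z| * |z| ≤ s * s := mul_le_mul hz hz (abs_nonneg z) (by positivity)
    have h3 : (s : ℤ) * s < p := by exact_mod_cast hs2
    linarith
  have hX0 : X ≠ 0 := by
    intro h
    rw [h, zero_mul, sub_zero] at hdvd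
    have h1 : Y = 0 := hsmall Y hYs ((hpi.dvd_or_dvd hdvd).resolve_right hq)
    apply hne
    refine Prod.ext (Fin.ext ?_) (Fin.ext ?_)
    · show (x1 : ℕ) = x2
      omega
    · show (y1 : ℕ) = y2
      omega
  have hY0 : Y ≠ 0 := by
    intro h
    rw [h, zero_mul, zero_sub, dvd_neg] at hdvd
    exact hX0 (hsmall X hXs ((hpi.dvd_or_dvd hdvd).resolve_right hq'))
  rcases lt_or_gt_of_ne hX0 with h | h
  · refine ⟨-X, -Y, by omega, by omega, ?_, ?_, ?_⟩
    · rw [neg_sq]; exact hsq X hXs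
    · rw [neg_sq]; exact hsq Y hYs
    · have h1 : -Y * q - -X * q' = -(Y * q - X * q') := by ring
      rw [h1, dvd_neg]
      exact hdvd
  · exact ⟨X, Y, h, hY0, hsq X hXs, hsq Y hYs, hdvd⟩

lemma mul_lt_of_sq {p : ℕ} {x y : ℤ} (hx0 : 0 ≤ x) (hy0 : 0 ≤ y) (hx : x ^ 2 < p)
    (hy : y ^ 2 < p) : x * y < p := by
  rcases le_total x y with h | h
  · nlinarith
  · nlinarith

/-- A solution of a congruence in the interval `[1, z]`. -/
lemma exists_mem {w z : ℤ} (hz : 0 < z) (h : IsCoprime w z) (c : ℤ) :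
    ∃ y : ℤ, 0 < y ∧ y ≤ z ∧ z ∣ c - w * y := by
  obtain ⟨e, f, hef⟩ := h
  refine ⟨(c * e - 1) % z + 1, ?_, ?_, ?_⟩
  · have := Int.emod_nonneg (c * e - 1) hz.ne'
    omega
  · have := Int.emod_lt_of_pos (c * e - 1) hz
    omega
  · have h1 : (c * e - 1) % z = (c * e - 1) - z * ((c * e - 1) / z) := by
      rw [Int.emod_def]
    rw [h1]
    refine ⟨c * f + w * ((c * e - 1) / z), ?_⟩
    linear_combination (-c) * hef

/-- Two residues which do not have a small positive ratio can be separated. -/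
lemma separate {p a : ℕ} (hp : p.Prime) (ha : a ^ 2 < p) {q q' : ℤ} (hq : ¬ (p : ℤ) ∣ q)
    (hq' : ¬ (p : ℤ) ∣ q')
    (hno : ∀ x y : ℤ, 0 < x → x < a → 0 < y → y < a → ¬ (p : ℤ) ∣ y * q - x * q') :
    ∃ x y : ℤ, 0 < x ∧ x * a < p ∧ 0 < y ∧ y * a < p ∧ (p : ℤ) ∣ y * q + x * q' := by
  have ha' : (a : ℤ) ^ 2 < p := by exact_mod_cast ha
  have ha0 : (0 : ℤ) ≤ a := Int.natCast_nonneg a
  have hpi : Prime (p : ℤ) := Nat.prime_iff_prime_int.1 hp
  obtain ⟨x1, y1, hx1, hy1, hx1s, hy1s, hd⟩ := thue hp hq hq'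
  rcases lt_or_gt_of_ne hy1 with hneg | hpos
  · refine ⟨x1, -y1, hx1, mul_lt_of_sq hx1.le ha0 hx1s ha', by omega, ?_, ?_⟩
    · exact mul_lt_of_sq (by omega) ha0 (by rw [neg_sq]; exact hy1s) ha'
    · have h1 : -y1 * q + x1 * q' = -(y1 * q - x1 * q') := by ring
      rw [h1, dvd_neg]
      exact hd
  · have hg : (0 : ℤ) < (Int.gcd x1 y1 : ℤ) := by
      have := Int.gcd_pos_of_ne_zero_left y1 hx1.ne'
      exact_mod_cast this
    obtain ⟨x2, hx2⟩ := Int.gcd_dvd_left x1 y1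
    obtain ⟨y2, hy2⟩ := Int.gcd_dvd_right x1 y1
    set g : ℤ := (Int.gcd x1 y1 : ℤ) with hgdef
    have hx2p : 0 < x2 := by
      by_contra hcon
      push Not at hcon
      have : g * x2 ≤ 0 := mul_nonpos_of_nonneg_of_nonpos hg.le hcon
      omega
    have hy2p : 0 < y2 := by
      by_contra hcon
      push Not at hcon
      have : g * y2 ≤ 0 := mul_nonpos_of_nonneg_of_nonpos hg.le hcon
      omega
    have hx2l : x2 ≤ x1 := by nlinarith
    have hy2l : y2 ≤ y1 := by nlinarith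
    have hgl : g ≤ x1 := by nlinarith
    have hx2s : x2 ^ 2 < p := by nlinarith
    have hy2s : y2 ^ 2 < p := by nlinarith
    have hx1p : x1 < p := by nlinarith
    have hcop : IsCoprime x2 y2 := by
      rw [Int.isCoprime_iff_gcd_eq_one]
      have h1 : Int.gcd (g * x2) (g * y2) = g.natAbs * Int.gcd x2 y2 := Int.gcd_mul_left g x2 y2
      rw [← hx2, ← hy2] at h1
      have h2 : g.natAbs = Int.gcd x1 y1 := by rw [hgdef]; exact Int.natAbs_natCast _
      rw [h2] at h1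
      have h3 : 0 < Int.gcd x1 y1 := Int.gcd_pos_of_ne_zero_left y1 hx1.ne'
      exact Nat.eq_of_mul_eq_mul_left h3 (by rw [← h1, mul_one])
    have hd2 : (p : ℤ) ∣ y2 * q - x2 * q' := by
      have h1 : (p : ℤ) ∣ g * (y2 * q - x2 * q') := by
        have h2 : g * (y2 * q - x2 * q') = y1 * q - x1 * q' := by
          rw [hx2, hy2]; ring
        rw [h2]
        exact hd
      refine (hpi.dvd_or_dvd h1).resolve_left fun h => ?_
      have := Int.le_of_dvd hg h
      omega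
    have hnd : ∀ z : ℤ, 0 < z → z < p → ¬ (p : ℤ) ∣ z := fun z hz hzp h => by
      have := Int.le_of_dvd hz h
      omega
    have hxy := mul_lt_of_sq hx2p.le hy2p.le hx2s hy2s
    have hbig : (a : ℤ) ≤ x2 ∨ (a : ℤ) ≤ y2 := by
      by_contra hcon
      push Not at hcon
      exact hno x2 y2 hx2p hcon.1 hy2p hcon.2 hd2
    rcases hbig with hbig | hbig
    · obtain ⟨x, hx0, hxl, y, hy⟩ := exists_mem hx2p hcop.symm p
      have hyp : 0 < y := by
        by_contra hcon
        push Not at hcon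
        have h1 : x2 * y ≤ 0 := mul_nonpos_of_nonneg_of_nonpos hx2p.le hcon
        have h2 : y2 * x ≤ y2 * x2 := mul_le_mul_of_nonneg_left hxl hy2p.le
        have h3 : y2 * x2 = x2 * y2 := mul_comm _ _
        omega
      refine ⟨x, y, hx0, ?_, hyp, ?_, ?_⟩
      · calc x * a ≤ x2 * a := mul_le_mul_of_nonneg_right hxl ha0
          _ < p := mul_lt_of_sq hx2p.le ha0 hx2s ha'
      · have h1 : y * a ≤ y * x2 := mul_le_mul_of_nonneg_left hbig hyp.le
        have h2 : y * x2 = x2 * y := mul_comm _ _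
        have h3 : 0 < y2 * x := mul_pos hy2p hx0
        omega
      · have h1 : (p : ℤ) ∣ x2 * (y * q + x * q') := by
          have h2 : x2 * (y * q + x * q') = p * q - x * (y2 * q - x2 * q') := by
            linear_combination (-q) * hy
          rw [h2]
          exact dvd_sub (dvd_mul_right _ _) (Dvd.dvd.mul_left hd2 _)
        refine (hpi.dvd_or_dvd h1).resolve_left (hnd x2 hx2p (by omega))
    · obtain ⟨y, hy0, hyl, x, hx⟩ := exists_mem hy2p hcop p
      have hxp : 0 < x := by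
        by_contra hcon
        push Not at hcon
        have h1 : y2 * x ≤ 0 := mul_nonpos_of_nonneg_of_nonpos hy2p.le hcon
        have h2 : x2 * y ≤ x2 * y2 := mul_le_mul_of_nonneg_left hyl hx2p.le
        omega
      have hy2p' : y2 < p := by nlinarith
      refine ⟨x, y, hxp, ?_, hy0, ?_, ?_⟩
      · have h1 : x * a ≤ x * y2 := mul_le_mul_of_nonneg_left hbig hxp.le
        have h2 : x * y2 = y2 * x := mul_comm _ _
        have h3 : 0 < x2 * y := mul_pos hx2p hy0
        omega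
      · calc y * a ≤ y2 * a := mul_le_mul_of_nonneg_right hyl ha0
          _ < p := mul_lt_of_sq hy2p.le ha0 hy2s ha'
      · have h1 : (p : ℤ) ∣ y2 * (y * q + x * q') := by
          have h2 : y2 * (y * q + x * q') = p * q' + y * (y2 * q - x2 * q') := by
            linear_combination (-q') * hx
          rw [h2]
          exact dvd_add (dvd_mul_right _ _) (Dvd.dvd.mul_left hd2 _)
        exact (hpi.dvd_or_dvd h1).resolve_left (hnd y2 hy2p hy2p')

/-- The ratios of the largest integers below `p / a`. -/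
lemma no_ratio {p a b L Q R : ℤ} (hb0 : 0 ≤ b) (hLb : a * b + 1 ≤ L) (hLp : L * a < p)
    (hQL : L - b ≤ Q) (hRL : L - b ≤ R) (hQ' : Q ≤ L) (hR' : R ≤ L) (hQ0 : 0 < Q) (hR0 : 0 < R)
    (hne : Q ≠ R) {x y : ℤ} (hx0 : 0 < x) (hxa : x < a) (hy0 : 0 < y) (hya : y < a) :
    ¬ p ∣ y * Q - x * R := by
  intro hd
  have hL0 : 0 < L := lt_of_lt_of_le hQ0 hQ'
  have hyL : y * Q < p := by
    calc y * Q ≤ y * L := mul_le_mul_of_nonneg_left hQ' hy0.le
      _ ≤ a * L := mul_le_mul_of_nonneg_right hya.le hL0.le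
      _ = L * a := mul_comm _ _
      _ < p := hLp
  have hxL : x * R < p := by
    calc x * R ≤ x * L := mul_le_mul_of_nonneg_left hR' hx0.le
      _ ≤ a * L := mul_le_mul_of_nonneg_right hxa.le hL0.le
      _ = L * a := mul_comm _ _
      _ < p := hLp
  have h3 : 0 < y * Q := mul_pos hy0 hQ0
  have h4 : 0 < x * R := mul_pos hx0 hR0
  have h5 : y * Q - x * R = 0 := by
    refine Int.eq_zero_of_abs_lt_dvd hd ?_
    rw [abs_lt]
    constructor <;> linarith
  have key : ∀ {x y Q R : ℤ}, 0 < x → x < a → 0 < y → Q ≤ L → L - b ≤ R → y * Q = x * R →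
      y < x → False := by
    intro x y Q R hx0 hxa hy0 hQ' hRL h h7
    have h8 : y * Q ≤ (x - 1) * L := by
      calc y * Q ≤ y * L := mul_le_mul_of_nonneg_left hQ' hy0.le
        _ ≤ (x - 1) * L := mul_le_mul_of_nonneg_right (by omega) hL0.le
    have h9 : x * (L - b) ≤ x * R := mul_le_mul_of_nonneg_left hRL hx0.le
    have h10 : L ≤ x * b := by linarith
    have h11 : x * b ≤ a * b := mul_le_mul_of_nonneg_right hxa.le hb0
    linarith
  rcases lt_trichotomy y x with h7 | h7 | h7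
  · exact key hx0 hxa hy0 hQ' hRL (by linarith) h7
  · rw [h7] at h5
    have h8 : x * (Q - R) = 0 := by linear_combination h5
    rcases mul_eq_zero.1 h8 with h9 | h9
    · omega
    · exact hne (by omega)
  · exact key hy0 hya hx0 hR' hQL (by linarith) h7

/-- Numbers `v` for two residues which can be separated. -/
lemma exists_v {p a Q R : ℕ} (hp : p.Prime) (ha0 : 0 < a) (hQ0 : 0 < Q) (hQp : Q < p)
    (hR0 : 0 < R) (hRp : R < p) (ha2 : a ^ 2 < p)
    (hno : ∀ x y : ℤ, 0 < x → x < a → 0 < y → y < a → ¬ (p : ℤ) ∣ y * (Q : ℤ) - x * (R : ℤ)) :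
    ∃ v x y : ℕ, v.Coprime p ∧ 0 < x ∧ x * a < p ∧ 0 < y ∧ y * a < p ∧
        Q * v ≡ x [MOD p] ∧ p ∣ R * v + y := by
  have hpi : Prime (p : ℤ) := Nat.prime_iff_prime_int.1 hp
  have hndQ : ¬ (p : ℤ) ∣ (Q : ℤ) := by
    intro h
    have h1 := Nat.le_of_dvd hQ0 (Int.natCast_dvd_natCast.1 h)
    omega
  have hndR : ¬ (p : ℤ) ∣ (R : ℤ) := by
    intro h
    have h1 := Nat.le_of_dvd hR0 (Int.natCast_dvd_natCast.1 h)
    omega
  obtain ⟨x, y, hx0, hxa, hy0, hya, hd⟩ := separate hp ha2 hndQ hndR hno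
  lift x to ℕ using hx0.le
  lift y to ℕ using hy0.le
  have hcop : Nat.Coprime Q p := by
    rw [Nat.coprime_comm, Nat.Prime.coprime_iff_not_dvd hp]
    intro h
    have := Nat.le_of_dvd hQ0 h
    omega
  obtain ⟨v, hv⟩ : ∃ v : ℕ, Q * v ≡ x [MOD p] := by
    obtain ⟨e, he⟩ := Nat.exists_mul_mod_eq_one_of_coprime hcop hp.one_lt
    refine ⟨e * x, ?_⟩
    have h1 : Q * e ≡ 1 [MOD p] := by
      show Q * e % p = 1 % p
      rw [he.2, Nat.mod_eq_of_lt hp.one_lt]
    have h2 := h1.mul_right x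
    rw [one_mul, mul_assoc] at h2
    exact h2
  have hx0' : 0 < x := by exact_mod_cast hx0
  have hxa' : x * a < p := by exact_mod_cast hxa
  have hxp : x < p := lt_of_le_of_lt (Nat.le_mul_of_pos_right x ha0) hxa'
  refine ⟨v, x, y, ?_, hx0', hxa', by exact_mod_cast hy0, by exact_mod_cast hya, hv, ?_⟩
  · rw [Nat.coprime_comm, Nat.Prime.coprime_iff_not_dvd hp]
    intro h
    have h1 : x ≡ 0 [MOD p] := hv.symm.trans ((Nat.modEq_zero_iff_dvd).2 (Dvd.dvd.mul_left h Q))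
    have h2 := Nat.le_of_dvd hx0' ((Nat.modEq_zero_iff_dvd).1 h1)
    omega
  · have h1 : (p : ℤ) ∣ (Q : ℤ) * v - x := by
      have h2 := (Nat.modEq_iff_dvd).1 hv.symm
      push_cast at h2
      exact h2
    have h2 : (p : ℤ) ∣ (Q : ℤ) * (R * v + y) := by
      have h3 : (Q : ℤ) * (R * v + y) = R * ((Q : ℤ) * v - x) + (y * Q + x * R) := by ring
      rw [h3]
      exact dvd_add (Dvd.dvd.mul_left h1 _) hd
    have h3 := (hpi.dvd_or_dvd h2).resolve_left hndQ
    exact_mod_cast h3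

/-- **The largest integers below `p / a` can be separated.** -/
theorem window {p a b : ℕ} (hp : p.Prime) (ha : 2 ≤ a) (hb : a ^ 2 * b + a < p) :
    ∃ q : Fin (b + 1) → ℕ, (∀ j, 0 < q j ∧ q j * a < p) ∧
      ∀ j l, j ≠ l → ∃ v x y : ℕ, v.Coprime p ∧ 0 < x ∧ x * a < p ∧ 0 < y ∧ y * a < p ∧
        q j * v ≡ x [MOD p] ∧ p ∣ q l * v + y := by
  set L := (p - 1) / a with hL
  have ha0 : 0 < a := by omega
  have hL1 : L * a ≤ p - 1 := Nat.div_mul_le_self _ _
  have hL2 : a * b + 1 ≤ L := by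
    rw [hL, Nat.le_div_iff_mul_le ha0]
    have : (a * b + 1) * a = a ^ 2 * b + a := by ring
    omega
  have hbL : b < L := by
    have : b ≤ a * b := Nat.le_mul_of_pos_left b ha0
    omega
  have hp0 := hp.pos
  have hLa : L * a < p := by omega
  have hq : ∀ j : Fin (b + 1), 0 < L - (j : ℕ) ∧ (L - (j : ℕ)) * a < p := by
    intro j
    have := j.2
    refine ⟨by omega, ?_⟩
    have h1 : (L - (j : ℕ)) * a ≤ L * a := Nat.mul_le_mul_right _ (Nat.sub_le _ _)
    omega
  refine ⟨fun j => L - j, hq, fun j l hjl => ?_⟩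
  have hb1 : 1 ≤ b := by
    have h1 := j.2
    have h2 := l.2
    have h3 : (j : ℕ) ≠ l := fun h => hjl (Fin.ext h)
    omega
  have ha2 : a ^ 2 < p := by
    have : a ^ 2 ≤ a ^ 2 * b := Nat.le_mul_of_pos_right _ hb1
    omega
  have hlt : ∀ j : Fin (b + 1), L - (j : ℕ) < p := fun j =>
    lt_of_le_of_lt (Nat.le_mul_of_pos_right _ ha0) (hq j).2
  refine exists_v hp ha0 (hq j).1 (hlt j) (hq l).1 (hlt l) ha2 ?_
  intro x y hx0 hxa hy0 hya
  have hj := j.2
  have hl := l.2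
  have hjl' : (j : ℕ) ≠ l := fun h => hjl (Fin.ext h)
  refine no_ratio (a := a) (b := b) (L := L) (by positivity) (by exact_mod_cast hL2)
    (by exact_mod_cast hLa) ?_ ?_ ?_ ?_ ?_ ?_ ?_ hx0 hxa hy0 hya
  · push_cast [Nat.cast_sub (show (j : ℕ) ≤ L by omega)]; omega
  · push_cast [Nat.cast_sub (show (l : ℕ) ≤ L by omega)]; omega
  · push_cast [Nat.cast_sub (show (j : ℕ) ≤ L by omega)]; omega
  · push_cast [Nat.cast_sub (show (l : ℕ) ≤ L by omega)]; omega
  · push_cast [Nat.cast_sub (show (j : ℕ) ≤ L by omega)]; omega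
  · push_cast [Nat.cast_sub (show (l : ℕ) ≤ L by omega)]; omega
  · push_cast [Nat.cast_sub (show (l : ℕ) ≤ L by omega), Nat.cast_sub (show (j : ℕ) ≤ L by omega)]
    omega

end Pool.Agent.U222.HD.Ari
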