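import Pool.Agent.U222.HD.Defs0

/-!
# The Hodge conjecture for products with coverings and arbitrary varieties: cyclic coverings
-/

set_option autoImplicit false

open CategoryTheory AlgebraicGeometry TensorProduct

universe u

namespace Pool.Agent.U222.HD

open Pool.Agent.H914 Pool.Agent.H914.VarClass Pool.Agent.H914.VarClass.Obj Pool.Agent.Y121.AHS
open Pool.Agent.U222.HC (Fam GVar IsAlgebraic IsEigenvector IsAbove IsBelow IsUnrelated InSpan)

variable {k : Type u} [Field k] {𝒱 : VarClass k} {ops : CycleOps 𝒱}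

/-- The cohomology `H(X, ℚ)` is not zero, and the classes that are invariant under the group are
algebraic. -/
structure HasAlgebraicInvariants (T : HodgeTheory ops) (A : GVar 𝒱) : Prop where
  nontrivial : ∃ x : T.W.H A.X, x ≠ 0
  invariants : ∀ x : T.W.H A.X, (∀ g, T.W.map (A.act g) x = x) → IsAlgebraic T x

/-- The variety `X` with the action of the group `G` (of order `N`) has the Hodge theory of a smooth
projective model of the cyclic covering `w ^ N = l_1 ⋯ l_a` of the projective space of dimension `d`,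
branched along `a` hyperplanes in general position and the hyperplane at infinity (for `d = 1`: of the curve
`y ^ N = f (x)`, where `f` has degree `a` and no multiple roots):

* the invariant classes in `H(X, ℚ)` are algebraic, and `H(X, ℚ)` is not zero;
* the eigenvectors in `H(X, ℂ)` with nontrivial characters are sums of classes of types `(p, q)` with
  `-d ≤ p - q ≤ d` (they are in degree `d`);
* for a nontrivial character `χ` the eigenvectors with the character `χ ^ j` are of types `p - q ≥ d` (of
  type `(d, 0)`) for `0 < j < N / a`, and those with the character `χ ^ (-j)` of types `p - q ≤ -d`. -/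
structure IsCovering (T : HodgeTheory ops) (A : GVar 𝒱) (d a : ℕ) : Prop where
  algebraic : HasAlgebraicInvariants T A
  types : ∀ (χ : A.Ch) x, ¬ χ.IsTrivial → IsEigenvector T A χ x → IsAbove T (-d) x ∧ IsBelow T (-d) x
  extreme : ∃ χ : A.Ch, ¬ χ.IsTrivial ∧ ∀ j : ℕ, 0 < j → j * a < A.order → ∀ x,
    (IsEigenvector T A (χ.pow j) x → IsAbove T d x) ∧
      (IsEigenvector T A (inverse (χ.pow j)) x → IsBelow T d x)

/-- The varieties `X_i` are cyclic coverings `w ^ N_i = l_1 ⋯ l_(a_i)` of the projective spaces of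
dimensions `d_i ≥ M`, the `N_i` are different prime numbers, `a_i ≥ 2` and `N_i > a_i ^ 2 b + a_i`. -/
structure IsCoveringFamily (T : HodgeTheory ops) {n : ℕ} (A : Fam 𝒱 n) (M : ℤ) (b : ℕ)
    (d a : Fin (n + 1) → ℕ) : Prop where
  covering : ∀ i, IsCovering T (A i) (d i) (a i)
  prime : ∀ i, (A i).order.Prime
  ne : ∀ i i', i ≠ i' → (A i).order ≠ (A i').order
  two_le : ∀ i, 2 ≤ a i
  large : ∀ i, a i ^ 2 * b + a i < (A i).order
  dim : ∀ i, M ≤ d i

/-- The invariant classes are algebraic, and the eigenvectors of `G_i` in `H(X_i, ℂ)` with the nontrivial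
character `χ` are sums of classes of types `(p, q)` with `m i χ ≤ p - q ≤ - m i χ⁻¹`. -/
def HasTypes (T : HodgeTheory ops) {n : ℕ} (A : Fam 𝒱 n) (m : ∀ i, (A i).Ch → ℤ) : Prop :=
  (∀ i, HasAlgebraicInvariants T (A i)) ∧ ∀ i χ x, ¬ χ.IsTrivial → IsEigenvector T (A i) χ x →
    IsAbove T (m i χ) x ∧ IsBelow T (m i (inverse χ)) x

/-- For all nontrivial characters `χ i` of `G_i`, where `i` runs through a nonempty set `I` of indices,
there are numbers `u 0, …, u b`, prime to the orders of the `G_i` with `i ∈ I`, such that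

* for all `j` the sum of the numbers `m i (χ i ^ u j)` is at least `M`;
* for all `j ≠ l` there is a number `v`, prime to the orders, such that the sum of the numbers
  `m i (χ i ^ (u j * v))` and the sum of the numbers `m i (χ i ^ (- u l * v))` are positive. -/
def IsSeparated {n : ℕ} (A : Fam 𝒱 n) (m : ∀ i, (A i).Ch → ℤ) (M : ℤ) (b : ℕ) : Prop :=
  ∀ I : Finset (Fin (n + 1)), I.Nonempty → ∀ χ : ∀ i, (A i).Ch, (∀ i ∈ I, ¬ (χ i).IsTrivial) →
    ∃ u : Fin (b + 1) → ℕ, (∀ j, ∀ i ∈ I, (u j).Coprime (A i).order) ∧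
      (∀ j, M ≤ ∑ i ∈ I, m i ((χ i).pow (u j))) ∧
      ∀ j l, j ≠ l → ∃ v : ℕ, (∀ i ∈ I, v.Coprime (A i).order) ∧
        0 < ∑ i ∈ I, m i ((χ i).pow (u j * v)) ∧
        0 < ∑ i ∈ I, m i ((inverse (χ i)).pow (u l * v))

/-- The condition on the varieties `X_i`: they are cyclic coverings of large prime degrees
(`IsCoveringFamily`); or more generally the types of the eigenspaces satisfy inequalities `HasTypes` such
that the characters are separated or the orders are large prime numbers. -/
def IsAdmissible (T : HodgeTheory ops) {n : ℕ} (A : Fam 𝒱 n) (M : ℤ) (b : ℕ) : Prop :=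
  (∃ d a, IsCoveringFamily T A M b d a) ∨
    ∃ m, HasTypes T A m ∧ (IsSeparated A m M b ∨ HasLargePrimes A m M b)

/-- All Hodge types `(p, q)` of `Z` satisfy `0 ≤ p ≤ dim Z` and `0 ≤ q ≤ dim Z`. -/
def IsEffective (T : HodgeTheory ops) (Z : 𝒱.Obj) : Prop :=
  ∀ (p q : ℤ), ¬ (0 ≤ p ∧ p ≤ Z.dim ∧ 0 ≤ q ∧ q ≤ Z.dim) → hodgeNumber T Z p q = 0

/-- The condition on `Z`: the sums of the Hodge numbers `h^(p,q)` with `q - p ≥ M` are at most `b` in all
degrees; or `Z` has no Hodge substructure over the field of the roots of unity of order `N` with types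
`p - q ≤ -M` only; or the dimension of `Z` is smaller than `M`. -/
def IsSmall (T : HodgeTheory ops) (N : ℕ) (M : ℤ) (b : ℕ) (Z : 𝒱.Obj) : Prop :=
  HasHodgeNumbersAtMost T M b Z ∨ IsUnrelated T N M Z ∨ (IsEffective T Z ∧ Z.dim < M)

/-- The classes `a × b` of degree `2 w` on `X × Z`, where `a` is the class of an algebraic cycle on `X` and
`b` is a Hodge class on `Z`. -/
def productClasses (T : HodgeTheory ops) (X Z : 𝒱.Obj) (w : ℕ) : Set (T.W.H (X.prod Z)) :=
  {x | ∃ (j l : ℕ) (a : X.Cycles) (b : T.W.H Z), j + l = w ∧ X.IsCyc j a ∧ IsHodge T Z l b ∧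
    T.W.map (fst X Z) (T.W.cl X a) * T.W.map (snd X Z) b = x}

/-- The Hodge conjecture for the classes of degree `2 w` on `X`. -/
def HodgeConjectureIn (T : HodgeTheory ops) (X : 𝒱.Obj) (w : ℕ) : Prop :=
  ∀ c : T.W.H X, IsHodge T X w c → ∃ z, X.IsCyc w z ∧ T.W.cl X z = c

/-- The Hodge conjecture for `X`: every Hodge class on `X` is the class of an algebraic cycle (with
rational coefficients). -/
def HodgeConjecture (T : HodgeTheory ops) (X : 𝒱.Obj) : Prop := ∀ w, HodgeConjectureIn T X w

/-- The conclusions for the product of `X` and `Z`: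

* all Hodge classes on `X × Z` are linear combinations of products of classes of algebraic cycles on `X`
  and of Hodge classes on `Z`;
* the Hodge conjecture for `X × Z` is equivalent to the one for `Z`, also in the codimensions `≤ r`;
* the Hodge conjecture holds for `X × Z` if `Z` is a curve, and, if the theorem of Lefschetz on the classes
  of type `(1, 1)` holds for `Z`, also if `Z` is a surface or a threefold. -/
structure Conclusions (T : HodgeTheory ops) (X Z : 𝒱.Obj) : Prop where
  products : ∀ w c, IsHodge T (X.prod Z) w c → InSpan T.W.K (productClasses T X Z w) c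
  iff : HodgeConjecture T (X.prod Z) ↔ HodgeConjecture T Z
  iff_le : ∀ r, (∀ w ≤ r, HodgeConjectureIn T (X.prod Z) w) ↔ ∀ w ≤ r, HodgeConjectureIn T Z w
  curve : Z.dim ≤ 1 → HodgeConjecture T (X.prod Z)
  surface : Z.dim ≤ 3 → HodgeConjectureIn T Z 1 → HodgeConjecture T (X.prod Z)

end Pool.Agent.U222.HD
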