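import Pool.Agent.U222.HD.Defs
import Pool.Agent.U222.HD.Defs3

/-!
# The Hodge conjecture for products with coverings and arbitrary varieties: separated characters
-/

set_option autoImplicit false

open CategoryTheory AlgebraicGeometry TensorProduct

universe u

namespace Pool.Agent.U222.HD

open Pool.Agent.H914 Pool.Agent.H914.VarClass Pool.Agent.H914.VarClass.Obj Pool.Agent.Y121.AHS
  Pool.Agent.U222.HC

variable {k : Type u} [Field k] {𝒱 : VarClass k} {ops : CycleOps 𝒱}

/-- The orders of the groups `G_i` are pairwise coprime, and for each `i` and each nontrivial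
character `χ` of `G_i` there are numbers `u 0, …, u b`, prime to the order of `G_i`, such that

* `m i (χ ^ u j) ≥ M` for all `j`;
* for all `j ≠ l` there is a number `v`, prime to the order, such that the numbers
  `m i (χ ^ (u j * v))` and `m i (χ ^ (- u l * v))` are positive. -/
def IsCoprimeSeparated {n : ℕ} (A : Fam 𝒱 n) (m : ∀ i, (A i).Ch → ℤ) (M : ℤ) (b : ℕ) : Prop :=
  (∀ i i', i ≠ i' → (A i).order.Coprime (A i').order) ∧
    ∀ i (χ : (A i).Ch), ¬ χ.IsTrivial →
      ∃ u : Fin (b + 1) → ℕ, (∀ j, (u j).Coprime (A i).order) ∧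
        (∀ j, M ≤ m i (χ.pow (u j))) ∧
        ∀ j l, j ≠ l → ∃ v : ℕ, v.Coprime (A i).order ∧ 0 < m i (χ.pow (u j * v)) ∧
          0 < m i ((inverse χ).pow (u l * v))

end Pool.Agent.U222.HD
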