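import Pool.Agent.U222.HD.Nest
import Pool.Agent.U222.HD.Defs2
import Pool.Agent.U222.HD.Ari
import Pool.Agent.U222.HC.Pub

/-!
# The Hodge conjecture for products with coverings and arbitrary varieties: the theorem
-/

set_option autoImplicit false

open CategoryTheory AlgebraicGeometry TensorProduct Limits

universe u

namespace Pool.Agent.U222.HC.I

open Pool.Agent.H914 Pool.Agent.H914.VarClass Pool.Agent.H914.VarClass.Obj Pool.Agent.Y121.AHS

variable {k : Type u} [Field k] {𝒱 : VarClass k} {ops : CycleOps 𝒱}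

lemma chr_pow_congr {G : Type} [AddCommGroup G] [Fintype G] (χ : AddChar G ℂ) {s t : ℕ}
    (h : s ≡ t [MOD Fintype.card G]) : χ ^ s = χ ^ t := by
  refine DFunLike.ext _ _ fun g => ?_
  rw [AddChar.pow_apply, AddChar.pow_apply, ← AddChar.map_nsmul_eq_pow,
    ← AddChar.map_nsmul_eq_pow]
  congr 1
  have h4 : Fintype.card G • g = 0 := card_nsmul_eq_zero
  have h5 : addOrderOf g ∣ Fintype.card G := addOrderOf_dvd_of_nsmul_eq_zero h4
  exact (nsmul_eq_nsmul_iff_modEq).2 (h.of_dvd h5)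

lemma chr_inv_pow {G : Type} [AddCommGroup G] [Fintype G] (χ : AddChar G ℂ) {s t : ℕ}
    (h : Fintype.card G ∣ s + t) : χ⁻¹ ^ s = χ ^ t := by
  rw [inv_pow, inv_eq_iff_mul_eq_one, ← pow_add]
  have h1 := chr_pow_congr χ ((Nat.modEq_zero_iff_dvd).2 h)
  rw [h1, pow_zero]

/-- Simultaneous congruences. -/
lemma exists_crt {n : ℕ} (A : Fin (n + 1) → GVar 𝒱)
    (hcop : ∀ i i', i ≠ i' → (A i).order.Coprime (A i').order) (I : Finset (Fin (n + 1)))
    (u : Fin (n + 1) → ℕ) (hu : ∀ i ∈ I, (u i).Coprime (A i).order) :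
    ∃ v : ℕ, (∀ i ∈ I, v.Coprime (A i).order) ∧ ∀ i ∈ I, v ≡ u i [MOD (A i).order] := by
  obtain ⟨v, hv⟩ := Nat.chineseRemainderOfFinset u (fun i => (A i).order) I
    (fun i _ => Fintype.card_ne_zero) (fun i _ i' _ hne => hcop i i' hne)
  exact ⟨v, fun i hi => (Nat.ModEq.gcd_eq (hv i hi)).trans (hu i hi), hv⟩

lemma sum_ge {n : ℕ} {I : Finset (Fin (n + 1))} (hI : I.Nonempty) {M : ℤ} (hM : 0 < M)
    {f : Fin (n + 1) → ℤ} (h : ∀ i ∈ I, M ≤ f i) : M ≤ ∑ i ∈ I, f i := by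
  obtain ⟨i₀, hi₀⟩ := hI
  calc M ≤ f i₀ := h i₀ hi₀
    _ ≤ ∑ i ∈ I, f i := Finset.single_le_sum (fun i hi => le_trans hM.le (h i hi)) hi₀

/-- The case of groups of pairwise coprime orders. -/
theorem separated_of_coprime {n : ℕ} (A : Fin (n + 1) → GVar 𝒱)
    (m : ∀ i, AddChar (A i).G ℂ → ℤ) (M : ℤ) (b : ℕ) (hM : 0 < M)
    (hcop : ∀ i i', i ≠ i' → (A i).order.Coprime (A i').order)
    (h : ∀ i χ, χ ≠ 1 → ∃ u : Fin (b + 1) → ℕ, (∀ j, (u j).Coprime (A i).order) ∧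
      (∀ j, M ≤ m i (χ ^ u j)) ∧ ∀ j l, j ≠ l → ∃ v : ℕ, v.Coprime (A i).order ∧
        0 < m i (χ ^ (u j * v)) ∧ 0 < m i (χ⁻¹ ^ (u l * v))) : IsSeparated A m M b := by
  classical
  intro I hI χ hχ
  have h1 : ∀ i, ∃ u : Fin (b + 1) → ℕ, i ∈ I → (∀ j, (u j).Coprime (A i).order) ∧
      (∀ j, M ≤ m i (χ i ^ u j)) ∧ ∀ j l, j ≠ l → ∃ v : ℕ, v.Coprime (A i).order ∧
        0 < m i (χ i ^ (u j * v)) ∧ 0 < m i ((χ i)⁻¹ ^ (u l * v)) := by
    intro i
    by_cases hi : i ∈ I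
    · obtain ⟨u, hu⟩ := h i (χ i) (hχ i hi)
      exact ⟨u, fun _ => hu⟩
    · exact ⟨fun _ => 0, fun h => absurd h hi⟩
  choose u hu using h1
  choose w hw1 hw2 using fun j => exists_crt A hcop I (fun i => u i j) fun i hi => (hu i hi).1 j
  refine ⟨w, hw1, fun j => ?_, fun j l hjl => ?_⟩
  · refine sum_ge hI hM fun i hi => ?_
    rw [chr_pow_congr (χ i) (hw2 j i hi)]
    exact (hu i hi).2.1 j
  · have h2 : ∀ i, ∃ v : ℕ, i ∈ I → v.Coprime (A i).order ∧ 0 < m i (χ i ^ (u i j * v)) ∧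
        0 < m i ((χ i)⁻¹ ^ (u i l * v)) := by
      intro i
      by_cases hi : i ∈ I
      · obtain ⟨v, hv⟩ := (hu i hi).2.2 j l hjl
        exact ⟨v, fun _ => hv⟩
      · exact ⟨0, fun h => absurd h hi⟩
    choose v hv using h2
    obtain ⟨v', hv1, hv2⟩ := exists_crt A hcop I v fun i hi => (hv i hi).1
    refine ⟨v', hv1, ?_, ?_⟩
    · refine lt_of_lt_of_le zero_lt_one (sum_ge hI zero_lt_one fun i hi => ?_)
      rw [chr_pow_congr (χ i) ((hw2 j i hi).mul (hv2 i hi))]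
      exact Int.add_one_le_iff.2 (hv i hi).2.1
    · refine lt_of_lt_of_le zero_lt_one (sum_ge hI zero_lt_one fun i hi => ?_)
      rw [chr_pow_congr (χ i)⁻¹ ((hw2 l i hi).mul (hv2 i hi))]
      exact Int.add_one_le_iff.2 (hv i hi).2.2

/-- The case of large primes. -/
theorem separated_of_primes {n : ℕ} (A : Fin (n + 1) → GVar 𝒱)
    (m : ∀ i, AddChar (A i).G ℂ → ℤ) (M : ℤ) (b : ℕ) (hM : 0 < M)
    (hp : ∀ i, (A i).order.Prime) (hne : ∀ i i', i ≠ i' → (A i).order ≠ (A i').order)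
    (h : ∀ i, ∃ a : ℕ, 2 ≤ a ∧ a ^ 2 * b + a < (A i).order ∧
      ∀ χ : AddChar (A i).G ℂ, χ ≠ 1 → ∃ u : ℕ, u.Coprime (A i).order ∧
        ∀ j : ℕ, 0 < j → j * a < (A i).order → M ≤ m i (χ ^ (u * j))) : IsSeparated A m M b := by
  refine separated_of_coprime A m M b hM (fun i i' hii =>
    (Nat.coprime_primes (hp i) (hp i')).2 (hne i i' hii)) fun i χ hχ => ?_
  obtain ⟨a, ha, hab, hu⟩ := h i
  obtain ⟨u, hu1, hu2⟩ := hu χ hχ
  obtain ⟨q, hq, hsep⟩ := HD.Ari.window (hp i) ha hab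
  have hcop : ∀ x : ℕ, 0 < x → x * a < (A i).order → x.Coprime (A i).order := by
    intro x hx hxa
    rw [Nat.coprime_comm, Nat.Prime.coprime_iff_not_dvd (hp i)]
    intro hd
    have h1 := Nat.le_of_dvd hx hd
    have h2 : x ≤ x * a := Nat.le_mul_of_pos_right _ (by omega)
    omega
  refine ⟨fun j => u * q j, fun j => Nat.Coprime.mul_left hu1 (hcop _ (hq j).1 (hq j).2),
    fun j => hu2 _ (hq j).1 (hq j).2, fun j l hjl => ?_⟩
  obtain ⟨v, x, y, hv, hx0, hxa, hy0, hya, hjx, hly⟩ := hsep j l hjl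
  refine ⟨v, hv, lt_of_lt_of_le hM ?_, lt_of_lt_of_le hM ?_⟩
  · have h1 : u * q j * v ≡ u * x [MOD Fintype.card (A i).G] := by
      rw [mul_assoc]
      exact hjx.mul_left u
    rw [chr_pow_congr χ h1]
    exact hu2 x hx0 hxa
  · have h1 : Fintype.card (A i).G ∣ u * q l * v + u * y := by
      rw [mul_assoc, ← mul_add]
      exact Dvd.dvd.mul_left hly u
    rw [chr_inv_pow χ h1]
    exact hu2 y hy0 hya

variable (T : HodgeTheory ops)

/-- **The Hodge classes on the products.** -/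
theorem main_sums_few {n : ℕ} (A : Fin (n + 1) → GVar 𝒱) (m : ∀ i, AddChar (A i).G ℂ → ℤ)
    {M : ℤ} {b : ℕ} (h : IsSystem2 T A m) (hM : IsSeparated A m M b) {Z : 𝒱.Obj}
    (hZ : HD.HasHodgeNumbersAtMost T M b Z) (w : ℕ) (c : T.W.H ((product n A).prod Z))
    (hc : IsHodge T _ w c) : IsSumOfProducts T (product n A) Z w c := by
  have key : ∀ c : T.W.H ((nest n A).X.prod Z), IsHodge T _ w c →
      IsSumOfProducts T (nest n A).X Z w c := by
    intro c hc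
    refine sum_of_algTensor T hc.2 (algTensor_of_inv T (nest n A)
      (invAlg_nest T n A h.invariants) fun χ hχ => ?_)
    exact comp_eq_zero_few T (nest n A) (isSepar_nest T n A m h hM) hZ hc.2 hχ
  rw [nest_X] at key
  exact key c hc

/-- **The main theorem.** -/
theorem main2 {n : ℕ} (A : Fin (n + 1) → GVar 𝒱) (m : ∀ i, AddChar (A i).G ℂ → ℤ) (M : ℤ)
    (b : ℕ) (hM : 0 < M) (h : IsSystem2 T A m) (N : ℕ) (hN : ∀ i, (A i).order ∣ N)
    (hE : IsSeparated A m M b) :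
    HodgeConjecture T (product n A) ∧
    ∀ Z : 𝒱.Obj, HD.HasHodgeNumbersAtMost T M b Z ∨ IsUnrelated T N M Z →
      (∀ (w : ℕ) (c : T.W.H ((product n A).prod Z)), IsHodge T _ w c →
        IsSumOfProducts T (product n A) Z w c) ∧
      (HodgeConjecture T ((product n A).prod Z) ↔ HodgeConjecture T Z) := by
  refine ⟨main_self T A m hM h.sys hE.isExtreme, fun Z hZ => ?_⟩
  have h1 : ∀ (w : ℕ) (c : T.W.H ((product n A).prod Z)), IsHodge T _ w c →
      IsSumOfProducts T (product n A) Z w c := by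
    rcases hZ with hZ | hZ
    · exact main_sums_few T A m h hE hZ
    · exact main_sums T A m h.sys hE.isExtreme hN hZ
  exact ⟨h1, hodge_of_prod T (one_product T A h.nontrivial), fun h2 => hodge_of_sums T h2 h1⟩

end Pool.Agent.U222.HC.I

namespace Pool.Agent.U222.HD

open Pool.Agent.H914 Pool.Agent.H914.VarClass Pool.Agent.H914.VarClass.Obj Pool.Agent.Y121.AHS
  Pool.Agent.U222.HC

variable {k : Type u} [Field k] {𝒱 : VarClass k} {ops : CycleOps 𝒱} (T : HodgeTheory ops)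

lemma isSystem_int {n : ℕ} {A : Fam 𝒱 n} {m : ∀ i, (A i).Ch → ℤ} (h : IsSystem T A m) :
    I.IsSystem2 T A m := by
  refine ⟨fun i h1 => ?_, h.invariants, fun i χ x hχ hx => ?_, fun i χ x hχ hx => ?_⟩
  · obtain ⟨x, hx⟩ := h.nontrivial i
    exact hx (by rw [← one_mul x, h1, zero_mul])
  · exact (isAbove_iff T).1 (h.types i χ x (fun h => hχ ((isTrivial_iff χ).1 h)) hx).1
  · exact (isBelow_iff T).1 (h.types i χ x (fun h => hχ ((isTrivial_iff χ).1 h)) hx).2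

lemma isSeparated_int {n : ℕ} {A : Fam 𝒱 n} {m : ∀ i, (A i).Ch → ℤ} {M : ℤ} {b : ℕ} (hM : 0 < M)
    (h : IsSeparated A m M b ∨ IsCoprimeSeparated A m M b ∨ HasLargePrimes A m M b) :
    I.IsSeparated A m M b := by
  rcases h with h | h | h
  · intro J hJ χ hχ
    exact h J hJ χ fun i hi h1 => hχ i hi ((isTrivial_iff (χ i)).1 h1)
  · exact I.separated_of_coprime A m M b hM h.1 fun i χ hχ =>
      h.2 i χ fun h1 => hχ ((isTrivial_iff χ).1 h1)
  · refine I.separated_of_primes A m M b hM h.1 h.2.1 fun i => ?_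
    obtain ⟨a, ha, hab, hu⟩ := h.2.2 i
    exact ⟨a, ha, hab, fun χ hχ => hu χ fun h1 => hχ ((isTrivial_iff χ).1 h1)⟩

/-- **The main theorem.** -/
theorem main {n : ℕ} (A : Fam 𝒱 n) (m : ∀ i, (A i).Ch → ℤ) (M : ℤ) (b : ℕ) (hM : 0 < M)
    (h : IsSystem T A m)
    (hE : IsSeparated A m M b ∨ IsCoprimeSeparated A m M b ∨ HasLargePrimes A m M b) (N : ℕ)
    (hN : ∀ i, (A i).order ∣ N) :
    HodgeConjecture T (product n A) ∧
    ∀ Z : 𝒱.Obj, HasHodgeNumbersAtMost T M b Z ∨ IsUnrelated T N M Z →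
      (∀ w c, IsHodge T ((product n A).prod Z) w c → IsSumOfProducts T (product n A) Z w c) ∧
      (HodgeConjecture T ((product n A).prod Z) ↔ HodgeConjecture T Z) := by
  obtain ⟨h1, h2⟩ := I.main2 T A m M b hM (isSystem_int T h) N hN (isSeparated_int hM hE)
  refine ⟨h1, fun Z hZ => ?_⟩
  obtain ⟨h3, h4⟩ := h2 Z (hZ.imp id (isUnrelated_int T))
  exact ⟨fun w c hc => isSum_int T (h3 w c hc), h4⟩

end Pool.Agent.U222.HD
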