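import Pool.Agent.U222.HC.Fin
import Pool.Agent.U222.HC.Defs
import Pool.Agent.Y121.AHS.Conv
import Pool.Agent.Y121.AH.HR

/-!
# The Hodge conjecture in a given codimension
-/

set_option autoImplicit false

open CategoryTheory AlgebraicGeometry TensorProduct

universe u

namespace Pool.Agent.U222.HD

open Pool.Agent.H914 Pool.Agent.H914.VarClass Pool.Agent.H914.VarClass.Obj Pool.Agent.Y121.AHS
open Pool.Agent.U222.HC (HodgeConjecture IsSumOfProducts)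

variable {k : Type u} [Field k] {𝒱 : VarClass k} {ops : CycleOps 𝒱} (T : HodgeTheory ops)
  {X Z : 𝒱.Obj}

/-- The Hodge conjecture for the classes of degree `2 w` on `X`. -/
def HodgeIn (X : 𝒱.Obj) (w : ℕ) : Prop :=
  ∀ c : T.W.H X, IsHodge T X w c → ∃ z, X.IsCyc w z ∧ T.W.cl X z = c

lemma hodgeIn_iff : HodgeConjecture T X ↔ ∀ w, HodgeIn T X w := Iff.rfl

lemma hodgeIn_zero : HodgeIn T X 0 := by
  intro c hc
  have h1 := hc.1
  rw [mul_zero, T.W.gr_zero] at h1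
  obtain ⟨q, rfl⟩ := Submodule.mem_span_singleton.1 h1
  obtain ⟨r, rfl⟩ := T.rat q
  refine ⟨r • X.V.fundCycle, SmVar.IsCyc.smul _ X.V.fundCycle_mem, ?_⟩
  rw [T.W.cl_smul, T.W.cl_fund X]

lemma hodge_of_half (h : ∀ j, 2 * j ≤ Z.dim → HodgeIn T Z j) : HodgeConjecture T Z := by
  intro w c hc
  by_cases h1 : 2 * w ≤ Z.dim
  · exact h w h1 c hc
  by_cases h2 : w ≤ Z.dim
  · obtain ⟨D, hD⟩ := (toH T).dec.polar Z
    obtain ⟨x, hx, hxc⟩ := Pool.Agent.Y121.AH.lifts_hodge (toH T) Z D hD (Z.dim - w) (by omega) c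
      (by rw [Nat.sub_sub_self h2]; exact hc)
    obtain ⟨z, hz, hcl⟩ := h (Z.dim - w) (by omega) x hx
    have hcyc : ∀ r : ℕ, ∃ y, Z.IsCyc r y ∧ T.W.cl Z y = T.W.cl Z D ^ r := by
      intro r
      induction r with
      | zero => exact ⟨Z.V.fundCycle, Z.V.fundCycle_mem, by rw [pow_zero]; exact T.W.cl_fund Z⟩
      | succ r ih =>
        obtain ⟨y, hy, hyc⟩ := ih
        exact ⟨ops.mul y D, ops.mul_mem hy hD.1, by rw [T.W.cl_mul, hyc, pow_succ]⟩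
    obtain ⟨y, hy, hyc⟩ := hcyc (Z.dim - 2 * (Z.dim - w))
    refine ⟨ops.mul y z, ?_, ?_⟩
    · have h3 := ops.mul_mem hy hz
      rwa [show Z.dim - 2 * (Z.dim - w) + (Z.dim - w) = w by omega] at h3
    · rw [T.W.cl_mul, hyc, hcl]
      exact hxc
  · have h4 := hc.1
    rw [T.W.gr_eq_bot Z _ (by omega)] at h4
    exact ⟨0, SmVar.IsCyc.zero _ _, (map_zero _).trans ((Submodule.mem_bot _).1 h4).symm⟩

lemma hodge_of_dim_le_three (hd : Z.dim ≤ 3) (h : HodgeIn T Z 1) : HodgeConjecture T Z := by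
  refine hodge_of_half T fun j hj => ?_
  obtain rfl | rfl : j = 0 ∨ j = 1 := by omega
  · exact hodgeIn_zero T
  · exact h

variable {T}

lemma cyc_of_sums {n : ℕ} (hZ : ∀ j ≤ n, HodgeIn T Z j) {w : ℕ} (hw : w ≤ n)
    {c : T.W.H (X.prod Z)} (h : IsSumOfProducts T X Z w c) :
    ∃ z, (X.prod Z).IsCyc w z ∧ T.W.cl (X.prod Z) z = c := by
  induction h with
  | zero => exact ⟨0, SmVar.IsCyc.zero _ _, map_zero _⟩
  | add _ _ h1 h2 =>
    obtain ⟨z1, hz1, rfl⟩ := h1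
    obtain ⟨z2, hz2, rfl⟩ := h2
    exact ⟨z1 + z2, SmVar.IsCyc.add hz1 hz2, map_add _ _ _⟩
  | @prod j l a b hjl ha hb =>
    obtain ⟨z, hz, rfl⟩ := hZ _ (by omega) _ hb
    refine ⟨ops.mul (ops.pull (fst X Z) a) (ops.pull (snd X Z) z), ?_, ?_⟩
    · have h2 := ops.mul_mem (ops.pull_mem (fst X Z) ha) (ops.pull_mem (snd X Z) hz)
      rwa [hjl] at h2
    · rw [T.W.cl_mul, T.W.cl_pull, T.W.cl_pull]

lemma hodgeIn_of_prod (h1 : (1 : T.W.H X) ≠ 0) {j : ℕ} (h : HodgeIn T (X.prod Z) j) :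
    HodgeIn T Z j := by
  intro c hc
  obtain ⟨y, hy, hydeg⟩ := HC.I.exists_point T h1
  have h2 : IsHodge T (X.prod Z) j (T.W.map (snd X Z) c) := by
    refine ⟨T.W.map_mem _ hc.1, ?_⟩
    exact T.map _ _ _ _ _ _ hc.2
  obtain ⟨z, hz, hcl⟩ := h _ h2
  have h3 : Z.IsCyc j (ops.push (snd X Z) (ops.mul (ops.pull (fst X Z) y) z)) := by
    refine ops.push_mem _ (ops.mul_mem (ops.pull_mem _ hy) hz) ?_
    rw [dim_prod]
    ring
  have h4 : T.W.cl Z (ops.push (snd X Z) (ops.mul (ops.pull (fst X Z) y) z)) =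
      T.W.tr X (T.W.cl X y) • c := by
    rw [T.W.cl_push, T.W.cl_mul, T.W.cl_pull, hcl, HC.I.push_snd]
  have h5 : T.W.tr X (T.W.cl X y) = (X.V.degCycle y : T.W.K) := T.W.tr_cl hy
  have h6 : X.V.degCycle y ≠ 0 := by
    intro h0
    rw [h5, h0, Rat.cast_zero] at hydeg
    exact hydeg rfl
  refine ⟨(X.V.degCycle y)⁻¹ • ops.push (snd X Z) (ops.mul (ops.pull (fst X Z) y) z),
    SmVar.IsCyc.smul _ h3, ?_⟩
  rw [T.W.cl_smul, h4, h5, smul_smul, ← Rat.cast_mul, inv_mul_cancel₀ h6, Rat.cast_one, one_smul]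

end Pool.Agent.U222.HD
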