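import Pool.Agent.U222.HD.Defs3
import Pool.Agent.U222.HD.Half
import Pool.Agent.U222.HD.Fin

/-!
# Cyclic coverings of large prime degrees
-/

set_option autoImplicit false

open CategoryTheory AlgebraicGeometry TensorProduct

universe u

namespace Pool.Agent.U222.HD

open Pool.Agent.H914 Pool.Agent.H914.VarClass Pool.Agent.H914.VarClass.Obj Pool.Agent.Y121.AHS
  Pool.Agent.U222.HC

variable {k : Type u} [Field k] {𝒱 : VarClass k} {ops : CycleOps 𝒱}

lemma exists_system (T : HodgeTheory ops) {n : ℕ} (A : Fam 𝒱 n) (M : ℤ) (b : ℕ)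
    {d a : Fin (n + 1) → ℕ} (h : IsCoveringFamily T A M b d a) :
    ∃ m, IsSystem T A m ∧ HasLargePrimes A m M b := by
  classical
  choose χ₀ hχ₀ hext using fun i => (h.covering i).extreme
  have hne : ∀ i (χ : (A i).Ch), ¬ χ.IsTrivial → (show AddChar (A i).G ℂ from χ) ≠ 1 := by
    intro i χ hχ h1
    refine hχ fun g => ?_
    change (show AddChar (A i).G ℂ from χ) g = 1
    rw [h1, AddChar.one_apply]
  have hcard : ∀ i, Nat.card (AddChar (A i).G ℂ) = (A i).order := by
    intro i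
    rw [Nat.card_eq_fintype_card, AddChar.card_eq]
    rfl
  have hord : ∀ i, orderOf (show AddChar (A i).G ℂ from χ₀ i) = (A i).order := by
    intro i
    haveI : Fact (A i).order.Prime := ⟨h.prime i⟩
    refine orderOf_eq_prime ?_ (hne i _ (hχ₀ i))
    rw [← hcard i]
    exact pow_card_eq_one'
  obtain ⟨S, hS⟩ : ∃ S : ∀ i, (A i).Ch → Prop, ∀ i χ, S i χ ↔
      ∃ j : ℕ, 0 < j ∧ j * a i < (A i).order ∧ χ = (χ₀ i).pow j := ⟨fun i χ => _, fun i χ => Iff.rfl⟩
  have hSS : ∀ i χ, S i χ → ¬ S i (inverse χ) := by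
    intro i χ h1 h2
    obtain ⟨j, hj, hja, hjχ⟩ := (hS i χ).1 h1
    obtain ⟨l, hl, hla, hlχ⟩ := (hS i _).1 h2
    have h3 : (show AddChar (A i).G ℂ from χ₀ i) ^ (j + l) = 1 := by
      rw [pow_add]
      have h4 : (show AddChar (A i).G ℂ from χ₀ i) ^ j = (show AddChar (A i).G ℂ from χ) :=
        hjχ.symm
      have h5 : (show AddChar (A i).G ℂ from χ₀ i) ^ l = (show AddChar (A i).G ℂ from χ)⁻¹ :=
        hlχ.symm
      rw [h4, h5, mul_inv_cancel]
    have h6 := orderOf_dvd_of_pow_eq_one h3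
    rw [hord i] at h6
    have h7 := Nat.le_of_dvd (by omega) h6
    have h8 := h.two_le i
    nlinarith
  refine ⟨fun i χ => if S i χ then (d i : ℤ) else -(d i : ℤ), ?_, h.prime, h.ne, fun i =>
    ⟨a i, h.two_le i, h.large i, fun χ hχ => ?_⟩⟩
  · refine ⟨fun i => (h.covering i).algebraic.nontrivial,
      fun i => (h.covering i).algebraic.invariants, fun i χ x hχ hx => ?_⟩
    obtain ⟨habove, hbelow⟩ := (h.covering i).types χ x hχ hx
    by_cases h1 : S i χ
    · rw [if_pos h1, if_neg (hSS i χ h1)]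
      refine ⟨?_, hbelow⟩
      obtain ⟨j, hj, hja, rfl⟩ := (hS i χ).1 h1
      exact (hext i j hj hja x).1 hx
    · rw [if_neg h1]
      refine ⟨habove, ?_⟩
      by_cases h2 : S i (inverse χ)
      · rw [if_pos h2]
        obtain ⟨j, hj, hja, hjχ⟩ := (hS i _).1 h2
        have h3 : χ = inverse ((χ₀ i).pow j) := by
          rw [← hjχ]
          exact (inv_inv (show AddChar (A i).G ℂ from χ)).symm
        exact (hext i j hj hja x).2 (h3 ▸ hx)
      · rw [if_neg h2]
        exact hbelow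
  · haveI : Fact (A i).order.Prime := ⟨h.prime i⟩
    obtain ⟨u, hu⟩ := (Submonoid.mem_powers_iff _ _).1 (mem_powers_of_prime_card (hcard i) (hne i χ hχ)
      (g' := (show AddChar (A i).G ℂ from χ₀ i)))
    refine ⟨u, ?_, fun j hj hja => ?_⟩
    · refine ((Nat.Prime.coprime_iff_not_dvd (h.prime i)).2 fun h1 => ?_).symm
      obtain ⟨e, rfl⟩ := h1
      refine hne i _ (hχ₀ i) ?_
      rw [← hu, pow_mul, ← hcard i, pow_card_eq_one', one_pow]
    · have h1 : S i (χ.pow (u * j)) := by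
        refine (hS i _).2 ⟨j, hj, hja, ?_⟩
        change (show AddChar (A i).G ℂ from χ) ^ (u * j) = (show AddChar (A i).G ℂ from χ₀ i) ^ j
        rw [pow_mul, hu]
      beta_reduce
      rw [if_pos h1]
      exact h.dim i

lemma few_of_effective (T : HodgeTheory ops) {M : ℤ} {b : ℕ} {Z : 𝒱.Obj} (h : IsEffective T Z)
    (hd : Z.dim < M) : HasHodgeNumbersAtMost T M b Z := by
  intro d S hS
  refine (Finset.sum_eq_zero fun r hr => h r.1 r.2 ?_).le.trans (Nat.zero_le b)
  have h1 := (hS r hr).2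
  rintro ⟨h3, h4, h5, h6⟩
  omega

lemma inSpan_of_sums {T : HodgeTheory ops} {X Z : 𝒱.Obj} {w : ℕ} {c : T.W.H (X.prod Z)}
    (h : IsSumOfProducts T X Z w c) : InSpan T.W.K (productClasses T X Z w) c := by
  induction h with
  | zero => exact Submodule.zero_mem _
  | add _ _ h1 h2 => exact Submodule.add_mem _ h1 h2
  | @prod j l a b hjl ha hb => exact Submodule.subset_span ⟨j, l, a, b, hjl, ha, hb, rfl⟩

/-- **The main theorem.** -/
theorem main3 (T : HodgeTheory ops) {n : ℕ} (A : Fam 𝒱 n) (M : ℤ) (b : ℕ) (hM : 0 < M)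
    (hA : IsAdmissible T A M b) (N : ℕ) (hN : ∀ i, (A i).order ∣ N) :
    HD.HodgeConjecture T (product n A) ∧
    ∀ Z : 𝒱.Obj, IsSmall T N M b Z → Conclusions T (product n A) Z := by
  obtain ⟨m, hm, hE⟩ : ∃ m, IsSystem T A m ∧ (IsSeparated A m M b ∨ HasLargePrimes A m M b) := by
    rcases hA with ⟨d, a, h⟩ | ⟨m, h, hE⟩
    · obtain ⟨m, h1, h2⟩ := exists_system T A M b h
      exact ⟨m, h1, Or.inr h2⟩
    · exact ⟨m, ⟨fun i => (h.1 i).nontrivial, fun i => (h.1 i).invariants, h.2⟩, hE⟩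
  obtain ⟨h1, h2⟩ := main T A m M b hM hm (hE.imp id Or.inr) N hN
  refine ⟨h1, fun Z hZ => ?_⟩
  obtain ⟨h3, h4⟩ := h2 Z (by
    rcases hZ with h | h | ⟨h, h'⟩
    · exact Or.inl h
    · exact Or.inr h
    · exact Or.inl (few_of_effective T h h'))
  have hone : (1 : T.W.H (product n A)) ≠ 0 := I.one_product T A (isSystem_int T hm).nontrivial
  refine ⟨fun w c hc => inSpan_of_sums (h3 w c hc), h4, fun r =>
    ⟨fun h w hw => hodgeIn_of_prod hone (h w hw), fun h w hw c hc =>
    cyc_of_sums h hw (h3 w c hc)⟩, fun hd => ?_, fun hd hl => ?_⟩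
  · exact h4.2 (hodge_of_half T fun j hj => by
      obtain rfl : j = 0 := by omega
      exact hodgeIn_zero T)
  · exact h4.2 (hodge_of_dim_le_three T hd hl)

end Pool.Agent.U222.HD
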