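import Pool.Agent.U222.HD.Defs0

/-!
# The Hodge conjecture for products with coverings and arbitrary varieties: definitions

In the intended use `k` is the field of complex numbers, `𝒱` is the class of all smooth projective
varieties over `k`, and `T` is the Hodge theory `X ↦ H(X, ℚ)`.
-/

set_option autoImplicit false

open CategoryTheory AlgebraicGeometry TensorProduct

universe u

namespace Pool.Agent.U222.HD

open Pool.Agent.H914 Pool.Agent.H914.VarClass Pool.Agent.H914.VarClass.Obj Pool.Agent.Y121.AHS
  Pool.Agent.U222.HC

variable {k : Type u} [Field k] {𝒱 : VarClass k} {ops : CycleOps 𝒱}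

/-- Varieties `X_i` with nonzero cohomology and with actions of finite abelian groups `G_i` such that

* the classes in `H(X_i, ℚ)` that are invariant under `G_i` are algebraic;
* for each nontrivial character `χ` of `G_i` the eigenvectors of `G_i` in `H(X_i, ℂ)` with the
  character `χ` are sums of classes of types `(p, q)` with `m i χ ≤ p - q ≤ - m i χ⁻¹` (the second
  inequality follows from the first one by complex conjugation). -/
structure IsSystem (T : HodgeTheory ops) {n : ℕ} (A : Fam 𝒱 n) (m : ∀ i, (A i).Ch → ℤ) :
    Prop where
  nontrivial : ∀ i, ∃ x : T.W.H (A i).X, x ≠ 0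
  invariants : ∀ i (x : T.W.H (A i).X), (∀ g, T.W.map ((A i).act g) x = x) → IsAlgebraic T x
  types : ∀ i χ x, ¬ χ.IsTrivial → IsEigenvector T (A i) χ x →
    IsAbove T (m i χ) x ∧ IsBelow T (m i (inverse χ)) x

end Pool.Agent.U222.HD
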