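import Pool.Agent.U222.HC.Defs

/-!
# The Hodge conjecture for products with coverings and arbitrary varieties: definitions

In the intended use `k` is the field of complex numbers, `𝒱` is the class of all smooth projective
varieties over `k`, and `T` is the Hodge theory `X ↦ H(X, ℚ)`.
-/

set_option autoImplicit false

open CategoryTheory AlgebraicGeometry TensorProduct

universe u

namespace Pool.Agent.U222.HD

open Pool.Agent.H914 Pool.Agent.H914.VarClass Pool.Agent.H914.VarClass.Obj Pool.Agent.Y121.AHS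
  Pool.Agent.U222.HC

variable {k : Type u} [Field k] {𝒱 : VarClass k} {ops : CycleOps 𝒱}

/-- The inverse of a character. -/
noncomputable def inverse {G : Type} [AddCommGroup G] (χ : Chr G) : Chr G :=
  Inv.inv (α := AddChar G ℂ) χ

/-- The orders of the groups `G_i` are different prime numbers `N_i`, and there are numbers
`a i ≥ 2` with `N_i > (a i) ^ 2 * b + a i` such that for each nontrivial character `χ` of `G_i` there
is a number `u`, prime to `N_i`, with `m i (χ ^ (u * j)) ≥ M` for all `j` with `0 < j < N_i / a i`. -/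
def HasLargePrimes {n : ℕ} (A : Fam 𝒱 n) (m : ∀ i, (A i).Ch → ℤ) (M : ℤ) (b : ℕ) : Prop :=
  (∀ i, (A i).order.Prime) ∧ (∀ i i', i ≠ i' → (A i).order ≠ (A i').order) ∧
    ∀ i, ∃ a : ℕ, 2 ≤ a ∧ a ^ 2 * b + a < (A i).order ∧
      ∀ χ : (A i).Ch, ¬ χ.IsTrivial → ∃ u : ℕ, u.Coprime (A i).order ∧
        ∀ j : ℕ, 0 < j → j * a < (A i).order → M ≤ m i (χ.pow (u * j))

/-- The Hodge number `h^(p,q)(Z)`. -/
noncomputable def hodgeNumber (T : HodgeTheory ops) (Z : 𝒱.Obj) (p q : ℤ) : ℕ :=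
  Module.finrank ℂ (T.pq Z p q)

/-- For each `d` the sum of the Hodge numbers `h^(p,q)(Z)` with `p + q = d` and `q - p ≥ M` is at
most `b`. -/
def HasHodgeNumbersAtMost (T : HodgeTheory ops) (M : ℤ) (b : ℕ) (Z : 𝒱.Obj) : Prop :=
  ∀ (d : ℤ) (S : Finset (ℤ × ℤ)), (∀ r ∈ S, r.1 + r.2 = d ∧ M ≤ r.2 - r.1) →
    ∑ r ∈ S, hodgeNumber T Z r.1 r.2 ≤ b

end Pool.Agent.U222.HD
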