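import Pool.Agent.U222.HD.Sep

/-!
# Products of varieties with group actions and separated conjugates
-/

set_option autoImplicit false

open CategoryTheory AlgebraicGeometry TensorProduct Limits

universe u

namespace Pool.Agent.U222.HC.I

open Pool.Agent.H914 Pool.Agent.H914.VarClass Pool.Agent.H914.VarClass.Obj Pool.Agent.Y121.AHS

variable {k : Type u} [Field k] {𝒱 : VarClass k} {ops : CycleOps 𝒱} (T : HodgeTheory ops)
  {X Y Z W : 𝒱.Obj} (A : GVar 𝒱)

/-- Products of classes below `m` and `m'`. -/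
lemma eL_below {m m' : ℤ} {a : HL T.W ℂ X} {b : HL T.W ℂ Y} (ha : a ∈ below T X m)
    (hb : b ∈ below T Y m') : eL T X Y a b ∈ below T (X.prod Y) (m + m') := by
  induction ha using Submodule.iSup_induction' with
  | mem r a ha =>
    induction hb using Submodule.iSup_induction' with
    | mem s b hb =>
      refine Submodule.mem_iSup_of_mem ⟨r.1 + s.1, ?_⟩ (eL_mem T ha hb)
      have h1 := r.2
      have h2 := s.2
      show (r.1.1 + s.1.1) - (r.1.2 + s.1.2) ≤ -(m + m')
      linarith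
    | zero => rw [map_zero]; exact Submodule.zero_mem _
    | add x y _ _ hx hy => rw [map_add]; exact Submodule.add_mem _ hx hy
  | zero => rw [map_zero, LinearMap.zero_apply]; exact Submodule.zero_mem _
  | add x y _ _ hx hy => rw [map_add, LinearMap.add_apply]; exact Submodule.add_mem _ hx hy

lemma below_mono2 {m m' : ℤ} (h : m ≤ m') : below T X m' ≤ below T X m :=
  iSup_le fun r => le_iSup (fun r : {r : ℤ × ℤ // r.1 - r.2 ≤ -m} => T.pq X r.1.1 r.1.2)
    ⟨r.1, r.2.trans (neg_le_neg h)⟩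

lemma below_of_algebraic {x : T.W.H X} (hx : IsAlgebraic T x) :
    emL T.W ℂ x ∈ below T X 0 := by
  induction hx using Submodule.span_induction with
  | mem a ha =>
    obtain ⟨j, z, hz, rfl⟩ := ha
    refine Submodule.mem_iSup_of_mem ⟨((j : ℤ), (j : ℤ)), ?_⟩ (T.cyc X j z hz).2
    rw [sub_self, neg_zero]
  | zero => rw [em_zero]; exact Submodule.zero_mem _
  | add x y _ _ hx hy => rw [em_add]; exact Submodule.add_mem _ hx hy
  | smul r x _ hx => rw [em_smul]; exact Submodule.smul_mem _ _ hx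

lemma eg_one_below (hA : InvAlg T A) (x : HL T.W ℂ A.X) : eg T A 1 x ∈ below T A.X 0 := by
  change ℂ ⊗[T.W.K] T.W.H A.X at x
  induction x using TensorProduct.induction_on with
  | zero => exact (map_zero (eg T A 1)).symm ▸ Submodule.zero_mem _
  | tmul z a =>
    have h1 : (z ⊗ₜ[T.W.K] a : ℂ ⊗[T.W.K] T.W.H A.X) = z • (emL T.W ℂ a : HL T.W ℂ A.X) := by
      show _ = z • ((1 : ℂ) ⊗ₜ[T.W.K] a)
      rw [TensorProduct.smul_tmul', smul_eq_mul, mul_one]
    have h2 : eg T A 1 (z • emL T.W ℂ a) ∈ below T A.X 0 := by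
      rw [map_smul, ← em_avg]
      exact Submodule.smul_mem _ _ (below_of_algebraic T (hA _ (avg_inv T A a)))
    exact h1 ▸ h2
  | add x y hx hy => exact (map_add (eg T A 1) x y).symm ▸ Submodule.add_mem _ hx hy

open Classical in
/-- The types of the eigenvectors on a product: upper bounds. -/
theorem types_nest_below : ∀ (n : ℕ) (A : Fin (n + 1) → GVar 𝒱)
    (m : ∀ i, AddChar (A i).G ℂ → ℤ), (∀ i, InvAlg T (A i)) →
    (∀ i χ x, χ ≠ 1 → IsEigenvector T (A i) χ x → x ∈ below T (A i).X (m i χ)) →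
    ∀ (χ : AddChar (nest n A).G ℂ) (x : HL T.W ℂ (nest n A).X),
      eg T (nest n A) χ x ∈ below T (nest n A).X
        (∑ i, if cmp n A χ i = 1 then 0 else m i (cmp n A χ i))
  | 0, A, m, hinv, htyp, χ, x => by
    have h1 : (∑ i, if cmp 0 A χ i = 1 then 0 else m i (cmp 0 A χ i)) =
        if χ = 1 then 0 else m 0 χ := by
      rw [Fin.sum_univ_one]
      rfl
    rw [h1]
    by_cases h : χ = 1
    · rw [if_pos h]
      subst h
      exact eg_one_below T (A 0) (hinv 0) x
    · rw [if_neg h]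
      exact htyp 0 χ _ h (eg_eigen T (A 0) χ x)
  | n + 1, A, m, hinv, htyp, χ, x => by
    have ih := types_nest_below n (fun i => A i.succ) (fun i => m i.succ) (fun i => hinv i.succ)
      (fun i => htyp i.succ) (c2 (A 0) (nest n fun i => A i.succ) χ)
    have h0 : ∀ a, eg T (A 0) (c1 (A 0) (nest n fun i => A i.succ) χ) a ∈ below T (A 0).X
        (if c1 (A 0) (nest n fun i => A i.succ) χ = 1 then 0 else
          m 0 (c1 (A 0) (nest n fun i => A i.succ) χ)) := by
      intro a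
      by_cases h : c1 (A 0) (nest n fun i => A i.succ) χ = 1
      · rw [if_pos h, h]
        exact eg_one_below T (A 0) (hinv 0) a
      · rw [if_neg h]
        exact htyp 0 _ _ h (eg_eigen T (A 0) _ a)
    have h1 : (∑ i, if cmp (n + 1) A χ i = 1 then 0 else m i (cmp (n + 1) A χ i)) =
        (if c1 (A 0) (nest n fun i => A i.succ) χ = 1 then 0 else
          m 0 (c1 (A 0) (nest n fun i => A i.succ) χ)) +
        ∑ i : Fin (n + 1), if cmp n (fun i => A i.succ)
          (c2 (A 0) (nest n fun i => A i.succ) χ) i = 1 then 0 else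
          m i.succ (cmp n (fun i => A i.succ) (c2 (A 0) (nest n fun i => A i.succ) χ) i) := by
      rw [Fin.sum_univ_succ]
      rfl
    rw [h1]
    change HL T.W ℂ ((A 0).X.prod (nest n fun i => A i.succ).X) at x
    induction x using kn_ind T with
    | h0 => exact (map_zero (eg T (nest (n + 1) A) χ)).symm ▸ Submodule.zero_mem _
    | ha x y hx hy =>
      exact (map_add (eg T (nest (n + 1) A) χ) x y).symm ▸ Submodule.add_mem _ hx hy
    | he a b =>
      have h2 := eg_prod T (A 0) (nest n fun i => A i.succ) χ a b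
      exact h2.symm ▸ eL_below T (h0 a) (ih b)

/-- Varieties with nonzero cohomology and with actions of finite abelian groups such that the
invariant classes are algebraic, with bounds for the types of the eigenvectors. -/
structure IsSystem2 {n : ℕ} (A : Fin (n + 1) → GVar 𝒱) (m : ∀ i, AddChar (A i).G ℂ → ℤ) :
    Prop where
  nontrivial : ∀ i, (1 : T.W.H (A i).X) ≠ 0
  invariants : ∀ i (x : T.W.H (A i).X), (∀ g, T.W.map ((A i).act g) x = x) → IsAlgebraic T x
  above : ∀ i χ x, χ ≠ 1 → IsEigenvector T (A i) χ x → x ∈ above T (A i).X (m i χ)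
  below : ∀ i χ x, χ ≠ 1 → IsEigenvector T (A i) χ x → x ∈ below T (A i).X (m i χ⁻¹)

lemma IsSystem2.sys {n : ℕ} {A : Fin (n + 1) → GVar 𝒱} {m : ∀ i, AddChar (A i).G ℂ → ℤ}
    (h : IsSystem2 T A m) : IsSystem T A m := ⟨h.nontrivial, h.invariants, h.above⟩

/-- Separated conjugates. -/
def IsSeparated {n : ℕ} (A : Fin (n + 1) → GVar 𝒱) (m : ∀ i, AddChar (A i).G ℂ → ℤ) (M : ℤ)
    (b : ℕ) : Prop :=
  ∀ I : Finset (Fin (n + 1)), I.Nonempty → ∀ χ : ∀ i, AddChar (A i).G ℂ, (∀ i ∈ I, χ i ≠ 1) →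
    ∃ u : Fin (b + 1) → ℕ, (∀ j, ∀ i ∈ I, (u j).Coprime (A i).order) ∧
      (∀ j, M ≤ ∑ i ∈ I, m i (χ i ^ u j)) ∧
      ∀ j l, j ≠ l → ∃ v : ℕ, (∀ i ∈ I, v.Coprime (A i).order) ∧
        0 < ∑ i ∈ I, m i (χ i ^ (u j * v)) ∧ 0 < ∑ i ∈ I, m i ((χ i)⁻¹ ^ (u l * v))

lemma IsSeparated.isExtreme {n : ℕ} {A : Fin (n + 1) → GVar 𝒱}
    {m : ∀ i, AddChar (A i).G ℂ → ℤ} {M : ℤ} {b : ℕ} (h : IsSeparated A m M b) :
    IsExtreme A m M := by
  intro I hI χ hχ
  obtain ⟨u, hu, hM, -⟩ := h I hI χ hχ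
  exact ⟨u 0, hu 0, hM 0⟩

lemma pow_cc {N : ℕ} {G : Type} [AddCommGroup G] [Fintype G] (hG : Fintype.card G ∣ N) {u : ℕ}
    {σ : ℂ ≃+* ℂ} (hσ : ∀ z : ℂ, z ^ N = 1 → σ z = z ^ u) (χ : AddChar G ℂ) :
    cc σ χ = χ ^ u := by
  refine DFunLike.ext _ _ fun g => ?_
  rw [cc_apply, AddChar.pow_apply]
  refine hσ _ ?_
  obtain ⟨r, hr⟩ := hG
  rw [hr, pow_mul, ← AddChar.map_nsmul_eq_pow]
  have h2 : Fintype.card G • g = 0 := card_nsmul_eq_zero
  rw [h2, AddChar.map_zero_eq_one, one_pow]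

lemma cc_eq_one (σ : ℂ ≃+* ℂ) {G : Type} [AddCommGroup G] (χ : AddChar G ℂ) :
    cc σ χ = 1 ↔ χ = 1 := by
  constructor
  · intro h3
    refine DFunLike.ext _ _ fun g => ?_
    have h4 := DFunLike.congr_fun h3 g
    rw [cc_apply, AddChar.one_apply] at h4
    rw [AddChar.one_apply]
    exact (map_eq_one_iff σ σ.injective).1 h4
  · intro h3
    rw [h3]
    refine DFunLike.ext _ _ fun g => ?_
    rw [cc_apply, AddChar.one_apply, map_one]

/-- The conjugates of the characters of a product are separated. -/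
theorem isSepar_nest (n : ℕ) (A : Fin (n + 1) → GVar 𝒱) (m : ∀ i, AddChar (A i).G ℂ → ℤ) {M : ℤ}
    {b : ℕ} (h : IsSystem2 T A m) (hM : IsSeparated A m M b) : IsSepar T (nest n A) M b := by
  classical
  intro χ hχ
  set I : Finset (Fin (n + 1)) := Finset.univ.filter fun i => cmp n A χ i ≠ 1 with hI
  have hIne : I.Nonempty := by
    by_contra hne
    rw [Finset.not_nonempty_iff_eq_empty, Finset.filter_eq_empty_iff] at hne
    exact hχ (eq_one_of_cmp n A χ fun i => by
      have h1 := hne (Finset.mem_univ i)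
      rwa [not_not] at h1)
  obtain ⟨u, hu, hMu, hsep⟩ := hM I hIne (cmp n A χ) fun i hi => (Finset.mem_filter.1 hi).2
  have hN : 0 < ∏ i ∈ I, (A i).order := Finset.prod_pos fun i _ => Fintype.card_pos
  choose σ hσ using fun j => exists_aut hN (Nat.Coprime.prod_right (hu j))
  have hdvd : ∀ i, i ∈ I → Fintype.card (A i).G ∣ ∏ i ∈ I, (A i).order := fun i hi =>
    Finset.dvd_prod_of_mem (fun i => (A i).order) hi
  have ht : ∀ (ψ : AddChar (nest n A).G ℂ), (∀ i, cmp n A ψ i = 1 ↔ cmp n A χ i = 1) →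
      (∀ x, IsEigenvector T (nest n A) ψ x →
        x ∈ above T (nest n A).X (∑ i ∈ I, m i (cmp n A ψ i))) ∧
      ∀ x, IsEigenvector T (nest n A) ψ x →
        x ∈ below T (nest n A).X (∑ i ∈ I, m i (cmp n A ψ i)⁻¹) := by
    intro ψ hψ
    have h2 : ∀ f : Fin (n + 1) → ℤ, (∑ i, if cmp n A ψ i = 1 then 0 else f i) = ∑ i ∈ I, f i := by
      intro f
      rw [hI, Finset.sum_filter]
      refine Finset.sum_congr rfl fun i _ => ?_
      by_cases hi : cmp n A χ i = 1
      · rw [if_neg (not_not.2 hi), if_pos ((hψ i).2 hi)]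
      · rw [if_pos hi, if_neg (fun h => hi ((hψ i).1 h))]
    constructor
    · intro x hx
      have h3 := types_nest T n A m h.invariants h.above ψ x
      rwa [eg_of_eigen T _ _ hx, h2] at h3
    · intro x hx
      have h3 := types_nest_below T n A (fun i χ => m i χ⁻¹) h.invariants h.below ψ x
      rwa [eg_of_eigen T _ _ hx, h2] at h3
  have h1 : ∀ j i, i ∈ I → cmp n A (cc (σ j) χ) i = (cmp n A χ i) ^ u j := by
    intro j i hi
    rw [cmp_cc]
    exact pow_cc (hdvd i hi) (hσ j) _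
  have h1' : ∀ j i, cmp n A (cc (σ j) χ) i = 1 ↔ cmp n A χ i = 1 := by
    intro j i
    rw [cmp_cc]
    exact cc_eq_one _ _
  refine ⟨σ, fun j x hx => ?_, fun j l hjl => ?_⟩
  · refine above_mono T (hMu j) ?_
    have h3 := (ht (cc (σ j) χ) (h1' j)).1 x hx
    rwa [Finset.sum_congr rfl fun i hi => by rw [h1 j i hi]] at h3
  · obtain ⟨v, hv, hv1, hv2⟩ := hsep j l hjl
    obtain ⟨τ, hτ⟩ := exists_aut hN (Nat.Coprime.prod_right hv)
    have h4 : ∀ j i, cmp n A (cc τ (cc (σ j) χ)) i = 1 ↔ cmp n A χ i = 1 := by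
      intro j i
      rw [cmp_cc, cc_eq_one]
      exact h1' j i
    have h5 : ∀ j i, i ∈ I → cmp n A (cc τ (cc (σ j) χ)) i = (cmp n A χ i) ^ (u j * v) := by
      intro j i hi
      rw [cmp_cc, h1 j i hi, pow_mul]
      exact pow_cc (hdvd i hi) hτ _
    refine ⟨τ, fun x hx => ?_, fun x hx => ?_⟩
    · refine above_mono T (Int.add_one_le_iff.2 hv1) ?_
      have h3 := (ht _ (h4 j)).1 x hx
      rwa [Finset.sum_congr rfl fun i hi => by rw [h5 j i hi]] at h3
    · refine below_mono2 T (Int.add_one_le_iff.2 hv2) ?_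
      have h3 := (ht _ (h4 l)).2 x hx
      rwa [Finset.sum_congr rfl fun i hi => by rw [h5 l i hi, ← inv_pow]] at h3

end Pool.Agent.U222.HC.I
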