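import Pool.Agent.U222.HC.Fin

/-!
# The projections to sums of classes of some types
-/

set_option autoImplicit false

open CategoryTheory AlgebraicGeometry TensorProduct

universe u

namespace Pool.Agent.U222.HC.I

open Pool.Agent.H914 Pool.Agent.H914.VarClass Pool.Agent.H914.VarClass.Obj Pool.Agent.Y121.AHS

variable {k : Type u} [Field k] {𝒱 : VarClass k} {ops : CycleOps 𝒱} (T : HodgeTheory ops)
  {X Y : 𝒱.Obj}

open Classical in
/-- The projection to the sums of classes of types in the set `S`. -/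
noncomputable def prS (X : 𝒱.Obj) (S : ℤ × ℤ → Prop) : HL T.W ℂ X →ₗ[ℂ] HL T.W ℂ X :=
  (DirectSum.toModule ℂ (ℤ × ℤ) (HL T.W ℂ X)
    fun r => if S r then (T.pq X r.1 r.2).subtype else 0) ∘ₗ
    (LinearEquiv.ofBijective (DirectSum.coeLinearMap fun r : ℤ × ℤ => T.pq X r.1 r.2)
      (types_internal T X)).symm.toLinearMap

open Classical in
lemma prS_of_mem (S : ℤ × ℤ → Prop) {r : ℤ × ℤ} {x : HL T.W ℂ X} (hx : x ∈ T.pq X r.1 r.2) :
    prS T X S x = if S r then x else 0 := by
  rw [prS, LinearMap.comp_apply, LinearEquiv.coe_coe]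
  have h : (LinearEquiv.ofBijective (DirectSum.coeLinearMap fun r : ℤ × ℤ => T.pq X r.1 r.2)
      (types_internal T X)).symm x = DirectSum.lof ℂ (ℤ × ℤ) (fun r => T.pq X r.1 r.2) r ⟨x, hx⟩ := by
    rw [LinearEquiv.symm_apply_eq, LinearEquiv.ofBijective_apply, DirectSum.coeLinearMap_lof]
  rw [h, DirectSum.toModule_lof]
  split_ifs with h1
  · rfl
  · rfl

lemma prS_yes {S : ℤ × ℤ → Prop} {r : ℤ × ℤ} {x : HL T.W ℂ X} (hx : x ∈ T.pq X r.1 r.2)
    (h : S r) : prS T X S x = x := by
  rw [prS_of_mem T S hx, if_pos h]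

lemma prS_no {S : ℤ × ℤ → Prop} {r : ℤ × ℤ} {x : HL T.W ℂ X} (hx : x ∈ T.pq X r.1 r.2)
    (h : ¬ S r) : prS T X S x = 0 := by
  rw [prS_of_mem T S hx, if_neg h]

/-- The components of a projection. -/
lemma pr_prS (S : ℤ × ℤ → Prop) (r : ℤ × ℤ) (x : HL T.W ℂ X) :
    pr T X r (prS T X S x) = prS T X S (pr T X r x) := by
  induction x using ty_ind T with
  | h0 => rw [map_zero, map_zero, map_zero]
  | ha x y hx hy => rw [map_add, map_add, map_add, map_add, hx, hy]
  | he s x hx =>
    by_cases h : S s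
    · rw [prS_yes T hx h, pr_of_mem T r hx]
      split_ifs
      · rw [prS_yes T hx h]
      · rw [map_zero]
    · rw [prS_no T hx h, map_zero, pr_of_mem T r hx]
      split_ifs
      · rw [prS_no T hx h]
      · rw [map_zero]

/-- For a class of pure type on a product the projections for the two factors agree. -/
lemma op_prS {t : ℤ × ℤ} {x : HL T.W ℂ (X.prod Y)} (hx : x ∈ T.pq (X.prod Y) t.1 t.2)
    (S : ℤ × ℤ → Prop) :
    op2 T (prS T Y S) x = op1 T (prS T X fun r => S (t - r)) x := by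
  classical
  have h : ∀ y : HL T.W ℂ (X.prod Y), op2 T (prS T Y S) (pr T (X.prod Y) t y) =
      op1 T (prS T X fun r => S (t - r)) (pr T (X.prod Y) t y) := by
    intro y
    induction y using kt_ind T with
    | h0 => rw [map_zero, map_zero, map_zero]
    | ha x y hx hy => rw [map_add, map_add, map_add, hx, hy]
    | he r s a b ha hb =>
      rw [pr_of_mem T t (eL_mem T ha hb)]
      split_ifs with h1
      · rw [op2_eL, op1_eL, prS_of_mem T S hb, prS_of_mem T (fun r => S (t - r)) ha]
        have h2 : t - r = s := by rw [← h1, add_sub_cancel_left]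
        rw [h2]
        split_ifs
        · rfl
        · rw [map_zero, map_zero, LinearMap.zero_apply]
      · rw [map_zero, map_zero]
  have h1 := h x
  rw [pr_same T hx] at h1
  exact h1

/-- Projections of the coefficients. -/
lemma prS_ctr {t : ℤ × ℤ} {x : HL T.W ℂ (X.prod Y)} (hx : x ∈ T.pq (X.prod Y) t.1 t.2)
    (S : ℤ × ℤ → Prop) (θ : HL T.W ℂ X →ₗ[ℂ] ℂ) :
    prS T Y S (ctr T θ x) = ctr T (θ ∘ₗ prS T X fun r => S (t - r)) x := by
  rw [← ctr_op2, op_prS T hx S, ctr_op1]

/-- The projections of the second factor preserve the types. -/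
lemma op2_prS_mem {t : ℤ × ℤ} {x : HL T.W ℂ (X.prod Y)} (hx : x ∈ T.pq (X.prod Y) t.1 t.2)
    (S : ℤ × ℤ → Prop) : op2 T (prS T Y S) x ∈ T.pq (X.prod Y) t.1 t.2 := by
  classical
  have h : ∀ y : HL T.W ℂ (X.prod Y),
      op2 T (prS T Y S) (pr T (X.prod Y) t y) ∈ T.pq (X.prod Y) t.1 t.2 := by
    intro y
    induction y using kt_ind T with
    | h0 => rw [map_zero, map_zero]; exact Submodule.zero_mem _
    | ha x y hx hy => rw [map_add, map_add]; exact Submodule.add_mem _ hx hy
    | he r s a b ha hb =>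
      rw [pr_of_mem T t (eL_mem T ha hb)]
      split_ifs with h1
      · rw [op2_eL, prS_of_mem T S hb]
        split_ifs
        · rw [← h1]
          exact eL_mem T ha hb
        · rw [map_zero]
          exact Submodule.zero_mem _
      · rw [map_zero]
        exact Submodule.zero_mem _
  have h1 := h x
  rw [pr_same T hx] at h1
  exact h1

/-! ### The components of the degrees -/

/-- The projection to the classes of degree `d`. -/
noncomputable def prD (X : 𝒱.Obj) (d : ℤ) : HL T.W ℂ X →ₗ[ℂ] HL T.W ℂ X :=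
  prS T X fun r => r.1 + r.2 = d

lemma prD_of_mem {i : ℕ} {x : HL T.W ℂ X} (hx : x ∈ grL T.W ℂ X i) (d : ℤ) :
    prD T X d x = if (i : ℤ) = d then x else 0 := by
  rw [T.span X i] at hx
  induction hx using Submodule.iSup_induction' with
  | mem r x hx =>
    rw [prD]
    by_cases h : (i : ℤ) = d
    · rw [if_pos h, prS_yes T hx]
      rw [r.2, h]
    · rw [if_neg h, prS_no T hx]
      rw [r.2]
      exact h
  | zero => rw [map_zero, ite_self]
  | add x y _ _ hx hy =>
    rw [map_add, hx, hy]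
    split_ifs
    · rfl
    · rw [add_zero]

/-- Induction on the degrees. -/
lemma dg_ind {P : HL T.W ℂ X → Prop} (h0 : P 0) (ha : ∀ x y, P x → P y → P (x + y))
    (he : ∀ (i : ℕ) x, x ∈ grL T.W ℂ X i → P x) (x : HL T.W ℂ X) : P x := by
  have hx : x ∈ ⨆ i : ℕ, grL T.W ℂ X i := by
    rw [grL_top T X]
    exact Submodule.mem_top
  induction hx using Submodule.iSup_induction' with
  | mem i x hx => exact he i x hx
  | zero => exact h0
  | add x y _ _ hx hy => exact ha x y hx hy

/-- Automorphisms of `ℂ` preserve the degrees. -/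
lemma conj_grL (σ : ℂ ≃+* ℂ) {i : ℕ} {x : HL T.W ℂ X} (hx : x ∈ grL T.W ℂ X i) :
    conj T σ x ∈ grL T.W ℂ X i := by
  have h : (grL T.W ℂ X i : Submodule ℂ (HL T.W ℂ X)) =
      Submodule.span ℂ ((fun a => emL T.W ℂ a) '' (T.W.gr X i : Set (T.W.H X))) :=
    Submodule.baseChange_eq_span _ _
  rw [h] at hx ⊢
  induction hx using Submodule.span_induction with
  | mem x hx =>
    obtain ⟨a, ha, rfl⟩ := hx
    rw [conj_em]
    exact Submodule.subset_span ⟨a, ha, rfl⟩
  | zero => rw [conj_zero]; exact Submodule.zero_mem _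
  | add x y _ _ hx hy => rw [conj_add]; exact Submodule.add_mem _ hx hy
  | smul z x _ hx => rw [conj_smul]; exact Submodule.smul_mem _ _ hx

lemma conj_prD (σ : ℂ ≃+* ℂ) (d : ℤ) (x : HL T.W ℂ X) :
    conj T σ (prD T X d x) = prD T X d (conj T σ x) := by
  induction x using dg_ind T with
  | h0 => rw [map_zero, conj_zero, map_zero]
  | ha x y hx hy => rw [map_add, conj_add, conj_add, map_add, hx, hy]
  | he i x hx =>
    rw [prD_of_mem T hx, prD_of_mem T (conj_grL T σ hx)]
    split_ifs
    · rfl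
    · rw [conj_zero]

lemma conj_op2_prD (σ : ℂ ≃+* ℂ) (d : ℤ) (x : HL T.W ℂ (X.prod Y)) :
    conj T σ (op2 T (prD T Y d) x) = op2 T (prD T Y d) (conj T σ x) := by
  induction x using kn_ind T with
  | h0 => rw [map_zero, conj_zero, map_zero]
  | ha x y hx hy => rw [map_add, conj_add, conj_add, map_add, hx, hy]
  | he a b => rw [op2_eL, conj_eL, conj_eL, op2_eL, conj_prD]

/-- A class is zero if its components of all degrees are zero. -/
lemma eq_zero_of_prD {x : HL T.W ℂ X} (h : ∀ d, prD T X d x = 0) : x = 0 := by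
  refine eq_of_pr T fun r => ?_
  have h1 : pr T X r (prD T X (r.1 + r.2) x) = pr T X r x := by
    rw [prD, pr_prS]
    exact prS_yes T (S := fun s : ℤ × ℤ => s.1 + s.2 = r.1 + r.2) (pr_mem T r x) rfl
  rw [← h1, h, map_zero]

end Pool.Agent.U222.HC.I
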