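import Pool.Agent.U222.HD.Prj
import Pool.Agent.U222.HD.Defs

/-!
# Separated conjugates and the vanishing of the components of Hodge classes
-/

set_option autoImplicit false

open CategoryTheory AlgebraicGeometry TensorProduct

universe u

namespace Pool.Agent.U222.HC.I

open Pool.Agent.H914 Pool.Agent.H914.VarClass Pool.Agent.H914.VarClass.Obj Pool.Agent.Y121.AHS

section linear

variable {V : Type*} [AddCommGroup V] [Module ℂ V]

/-- Vectors in subspaces which are separated pairwise by operators are linearly independent. -/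
lemma indep_of_sep {ι : Type} [Fintype ι] (U : ι → Submodule ℂ V) (y : ι → V)
    (hy : ∀ j, y j ∈ U j) (hne : ∀ j, y j ≠ 0)
    (hE : ∀ j l, j ≠ l → ∃ E : V →ₗ[ℂ] V, (∀ i, ∀ v ∈ U i, E v ∈ U i) ∧
      (∀ v ∈ U j, E v = v) ∧ ∀ v ∈ U l, E v = 0) : LinearIndependent ℂ y := by
  classical
  have key : ∀ j, ∀ S : Finset ι, j ∉ S → ∃ E : V →ₗ[ℂ] V, (∀ i, ∀ v ∈ U i, E v ∈ U i) ∧
      (∀ v ∈ U j, E v = v) ∧ ∀ l ∈ S, ∀ v ∈ U l, E v = 0 := by
    intro j S
    induction S using Finset.induction_on with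
    | empty => exact fun _ => ⟨LinearMap.id, fun _ _ hv => hv, fun _ _ => rfl, fun l hl =>
        absurd hl (Finset.notMem_empty l)⟩
    | insert l S hl ih =>
      intro hj
      rw [Finset.mem_insert, not_or] at hj
      obtain ⟨E, h1, h2, h3⟩ := ih hj.2
      obtain ⟨F, k1, k2, k3⟩ := hE j l hj.1
      refine ⟨E ∘ₗ F, fun i v hv => h1 i _ (k1 i v hv), fun v hv => ?_, fun i hi v hv => ?_⟩
      · rw [LinearMap.comp_apply, k2 v hv, h2 v hv]
      · rw [LinearMap.comp_apply]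
        rcases Finset.mem_insert.1 hi with rfl | hi
        · rw [k3 v hv, map_zero]
        · exact h3 i hi _ (k1 i v hv)
  rw [Fintype.linearIndependent_iff]
  intro g hg j
  obtain ⟨E, -, h2, h3⟩ := key j (Finset.univ.erase j) (Finset.notMem_erase j _)
  have h4 := congrArg E hg
  rw [map_zero, map_sum, Finset.sum_eq_single j, map_smul, h2 _ (hy j)] at h4
  · exact (smul_eq_zero.1 h4).resolve_right (hne j)
  · intro l _ hl
    rw [map_smul, h3 l (Finset.mem_erase.2 ⟨hl, Finset.mem_univ l⟩) _ (hy l), smul_zero]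
  · exact fun h => absurd (Finset.mem_univ j) h

lemma finrank_biSup_le [FiniteDimensional ℂ V] {ι : Type} (f : ι → Submodule ℂ V) (S : Finset ι) :
    Module.finrank ℂ (⨆ r ∈ S, f r : Submodule ℂ V) ≤ ∑ r ∈ S, Module.finrank ℂ (f r) := by
  classical
  induction S using Finset.induction_on with
  | empty => simp
  | insert r S hr ih =>
    rw [Finset.iSup_insert, Finset.sum_insert hr]
    exact (Submodule.finrank_add_le_finrank_add_finrank _ _).trans (Nat.add_le_add_left ih _)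

/-- The number of linearly independent vectors in a sum of subspaces. -/
lemma card_le_of_indep [FiniteDimensional ℂ V] {ι : Type} (f : ι → Submodule ℂ V) (S : Finset ι)
    {m : ℕ} {y : Fin m → V} (hy : LinearIndependent ℂ y)
    (h : ∀ j, y j ∈ (⨆ r ∈ S, f r : Submodule ℂ V)) : m ≤ ∑ r ∈ S, Module.finrank ℂ (f r) := by
  let W : Submodule ℂ V := ⨆ r ∈ S, f r
  let y' : Fin m → W := fun j => ⟨y j, h j⟩
  have h1 : LinearIndependent ℂ y' := by
    refine LinearIndependent.of_comp W.subtype ?_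
    exact hy
  have h2 := h1.fintype_card_le_finrank
  rw [Fintype.card_fin] at h2
  exact h2.trans (finrank_biSup_le f S)

end linear

variable {k : Type u} [Field k] {𝒱 : VarClass k} {ops : CycleOps 𝒱} (T : HodgeTheory ops)
  {X Y Z : 𝒱.Obj}

/-- The projection to the types `(p, q)` with `p - q ≤ -1`, conjugated by `τ`. -/
noncomputable def en (τ : ℂ ≃+* ℂ) : HL T.W ℂ Z →ₗ[ℂ] HL T.W ℂ Z where
  toFun y := conj T τ.symm (prS T Z (fun r => r.1 - r.2 ≤ -1) (conj T τ y))
  map_add' a b := by rw [conj_add, map_add, conj_add]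
  map_smul' z a := by
    rw [conj_smul, map_smul, conj_smul, RingEquiv.symm_apply_apply, RingHom.id_apply]

lemma en_apply (τ : ℂ ≃+* ℂ) (y : HL T.W ℂ Z) :
    en T τ y = conj T τ.symm (prS T Z (fun r => r.1 - r.2 ≤ -1) (conj T τ y)) := rfl

/-- The operators preserve the spaces of coefficients. -/
lemma en_cof (τ : ℂ ≃+* ℂ) {t : ℤ × ℤ} {x : HL T.W ℂ (X.prod Z)}
    (hx : conj T τ x ∈ T.pq (X.prod Z) t.1 t.2) {y : HL T.W ℂ Z} (hy : y ∈ cof T x) :
    en T τ y ∈ cof T x := by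
  obtain ⟨θ, rfl⟩ := hy
  rw [en_apply, conj_ctr, prS_ctr T hx, conj_ctr, conj_symm]
  exact mem_cof T x _

lemma prS_below {m : ℤ} (hm : 1 ≤ m) {y : HL T.W ℂ Z} (hy : y ∈ below T Z m) :
    prS T Z (fun r => r.1 - r.2 ≤ -1) y = y := by
  induction hy using Submodule.iSup_induction' with
  | mem r y hy =>
    refine prS_yes T hy ?_
    have := r.2
    linarith
  | zero => rw [map_zero]
  | add x y _ _ hx hy => rw [map_add, hx, hy]

lemma prS_above {m : ℤ} (hm : 0 ≤ m) {y : HL T.W ℂ Z} (hy : y ∈ above T Z m) :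
    prS T Z (fun r => r.1 - r.2 ≤ -1) y = 0 := by
  induction hy using Submodule.iSup_induction' with
  | mem r y hy =>
    refine prS_no T (S := fun r : ℤ × ℤ => r.1 - r.2 ≤ -1) hy ?_
    have := r.2
    rw [not_le]
    linarith
  | zero => rw [map_zero]
  | add x y _ _ hx hy => rw [map_add, hx, hy, add_zero]

variable (A : GVar 𝒱)

/-- For each nontrivial character there are `b + 1` conjugates which are above `M`, and any two of
which can be separated. -/
def IsSepar (M : ℤ) (b : ℕ) : Prop := ∀ χ : AddChar A.G ℂ, χ ≠ 1 →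
  ∃ σ : Fin (b + 1) → (ℂ ≃+* ℂ), (∀ j x, IsEigenvector T A (cc (σ j) χ) x → x ∈ above T A.X M) ∧
    ∀ j l, j ≠ l → ∃ τ : ℂ ≃+* ℂ,
      (∀ x, IsEigenvector T A (cc τ (cc (σ j) χ)) x → x ∈ above T A.X 1) ∧
      (∀ x, IsEigenvector T A (cc τ (cc (σ l) χ)) x → x ∈ below T A.X 1)

lemma IsSepar.isExt {M : ℤ} {b : ℕ} (h : IsSepar T A M b) : IsExt T A M := by
  intro χ hχ
  obtain ⟨σ, hσ, -⟩ := h χ hχ
  exact ⟨σ 0, hσ 0⟩

/-- The component of degree `d` of the component with character `ψ`. -/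
noncomputable def comp (d : ℤ) (c : T.W.H (A.X.prod Z)) (ψ : AddChar A.G ℂ) :
    HL T.W ℂ (A.X.prod Z) :=
  op2 T (prD T Z d) (op1 T (eg T A ψ) (emL T.W ℂ c))

lemma conj_comp (τ : ℂ ≃+* ℂ) (d : ℤ) (c : T.W.H (A.X.prod Z)) (ψ : AddChar A.G ℂ) :
    conj T τ (comp T A d c ψ) = comp T A d c (cc τ ψ) := by
  rw [comp, conj_op2_prD, conj_op1, conj_em, comp]

lemma comp_mem {w : ℤ × ℤ} (d : ℤ) {c : T.W.H (A.X.prod Z)}
    (hc : emL T.W ℂ c ∈ T.pq (A.X.prod Z) w.1 w.2) (ψ : AddChar A.G ℂ) :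
    comp T A d c ψ ∈ T.pq (A.X.prod Z) w.1 w.2 :=
  op2_prS_mem T (op1_eg_mem T A ψ hc) _

/-- Contractions only see the eigenvectors. -/
lemma op1_comp_zero (d : ℤ) (c : T.W.H (A.X.prod Z)) {ψ : AddChar A.G ℂ}
    {f : HL T.W ℂ A.X →ₗ[ℂ] HL T.W ℂ A.X} (h : ∀ x, IsEigenvector T A ψ x → f x = 0) :
    op1 T f (comp T A d c ψ) = 0 := by
  have h0 : ∀ y : HL T.W ℂ (A.X.prod Z), op1 T f (op2 T (prD T Z d) (op1 T (eg T A ψ) y)) = 0 := by
    intro y
    induction y using kn_ind T with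
    | h0 => rw [map_zero, map_zero, map_zero]
    | ha x y hx hy => rw [map_add, map_add, map_add, hx, hy, add_zero]
    | he a b =>
      rw [op1_eL, op2_eL, op1_eL, h _ (eg_eigen T A ψ a), map_zero, LinearMap.zero_apply]
  exact h0 _

/-- The coefficients if the eigenvectors are above `m`. -/
lemma cof_below {w : ℤ} (d : ℤ) {c : T.W.H (A.X.prod Z)}
    (hc : emL T.W ℂ c ∈ T.pq (A.X.prod Z) w w) {ψ : AddChar A.G ℂ} {m : ℤ}
    (h : ∀ x, IsEigenvector T A ψ x → x ∈ above T A.X m) :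
    cof T (comp T A d c ψ) ≤ below T Z m := by
  rintro _ ⟨θ, rfl⟩
  rw [mem_below]
  intro s hs
  rw [pr_ctr T (comp_mem T A (w := (w, w)) d hc ψ) s, ← ctr_op1, op1_comp_zero, map_zero]
  intro x hx
  refine (mem_above T).1 (h x hx) _ ?_
  show ¬ m ≤ (w - s.1) - (w - s.2)
  intro h
  apply hs
  linarith

/-- The coefficients if the eigenvectors are below `m`. -/
lemma cof_above {w : ℤ} (d : ℤ) {c : T.W.H (A.X.prod Z)}
    (hc : emL T.W ℂ c ∈ T.pq (A.X.prod Z) w w) {ψ : AddChar A.G ℂ} {m : ℤ}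
    (h : ∀ x, IsEigenvector T A ψ x → x ∈ below T A.X m) :
    cof T (comp T A d c ψ) ≤ above T Z m := by
  rintro _ ⟨θ, rfl⟩
  rw [mem_above]
  intro s hs
  rw [pr_ctr T (comp_mem T A (w := (w, w)) d hc ψ) s, ← ctr_op1, op1_comp_zero, map_zero]
  intro x hx
  refine (mem_below T).1 (h x hx) _ ?_
  show ¬ (w - s.1) - (w - s.2) ≤ -m
  intro h
  apply hs
  linarith

/-- The coefficients are of degree `d`. -/
lemma cof_degree (d : ℤ) (c : T.W.H (A.X.prod Z)) (ψ : AddChar A.G ℂ) {y : HL T.W ℂ Z}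
    (hy : y ∈ cof T (comp T A d c ψ)) {r : ℤ × ℤ} (hr : r.1 + r.2 ≠ d) : pr T Z r y = 0 := by
  obtain ⟨θ, rfl⟩ := hy
  rw [comp, ctr_op2, prD, pr_prS]
  exact prS_no T (S := fun s : ℤ × ℤ => s.1 + s.2 = d) (pr_mem T r _) hr

open Pool.Agent.U222.HD in
/-- **The vanishing of the components of Hodge classes with nontrivial characters.** -/
theorem comp_eq_zero_few {M : ℤ} {b : ℕ} (hA : IsSepar T A M b)
    (hZ : HasHodgeNumbersAtMost T M b Z) {w : ℤ} {c : T.W.H (A.X.prod Z)}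
    (hc : emL T.W ℂ c ∈ T.pq (A.X.prod Z) w w) {χ : AddChar A.G ℂ} (hχ : χ ≠ 1) :
    op1 T (eg T A χ) (emL T.W ℂ c) = 0 := by
  classical
  haveI : FiniteDimensional ℂ (HL T.W ℂ Z) :=
    (inferInstance : FiniteDimensional ℂ (ℂ ⊗[T.W.K] T.W.H Z))
  obtain ⟨σ, hσ, hsep⟩ := hA χ hχ
  refine eq_zero_of_ctr T fun θ => eq_zero_of_prD T fun d => ?_
  rw [← ctr_op2]
  change ctr T θ (comp T A d c χ) = 0
  by_contra hne
  set U : Fin (b + 1) → Submodule ℂ (HL T.W ℂ Z) := fun j =>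
    cof T (comp T A d c (cc (σ j) χ)) with hU
  set y : Fin (b + 1) → HL T.W ℂ Z := fun j => conj T (σ j) (ctr T θ (comp T A d c χ)) with hydef
  have hy : ∀ j, y j ∈ U j := by
    intro j
    simp only [hydef, hU]
    rw [conj_ctr, conj_comp]
    exact mem_cof T _ _
  have hyne : ∀ j, y j ≠ 0 := by
    intro j h
    apply hne
    apply conj_injective T (σ j)
    rw [conj_zero]
    exact h
  have hli : LinearIndependent ℂ y := by
    refine indep_of_sep U y hy hyne fun j l hjl => ?_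
    obtain ⟨τ, h1, h2⟩ := hsep j l hjl
    refine ⟨en T τ, fun i v hv => ?_, fun v hv => ?_, fun v hv => ?_⟩
    · refine en_cof T τ (t := (w, w)) ?_ hv
      rw [conj_comp]
      exact comp_mem T A (w := (w, w)) d hc _
    · have h3 : conj T τ v ∈ below T Z 1 := by
        obtain ⟨φ, rfl⟩ := hv
        rw [conj_ctr, conj_comp]
        exact cof_below T A d hc h1 (mem_cof T _ _)
      rw [en_apply, prS_below T le_rfl h3, conj_symm]
    · have h3 : conj T τ v ∈ above T Z 1 := by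
        obtain ⟨φ, rfl⟩ := hv
        rw [conj_ctr, conj_comp]
        exact cof_above T A d hc h2 (mem_cof T _ _)
      rw [en_apply, prS_above T zero_le_one h3, conj_zero]
  choose S hS0 hS using fun j => pr_sum T (y j)
  set R : Finset (ℤ × ℤ) := (Finset.univ.biUnion S).filter
    (fun r => r.1 + r.2 = d ∧ M ≤ r.2 - r.1) with hR
  have hmem : ∀ j, y j ∈ (⨆ r ∈ R, T.pq Z r.1 r.2 : Submodule ℂ (HL T.W ℂ Z)) := by
    intro j
    rw [hS j]
    refine Submodule.sum_mem _ fun r hr => ?_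
    by_cases h1 : r.1 + r.2 = d ∧ M ≤ r.2 - r.1
    · refine Submodule.mem_iSup_of_mem r (Submodule.mem_iSup_of_mem ?_ (pr_mem T r _))
      rw [hR, Finset.mem_filter, Finset.mem_biUnion]
      exact ⟨⟨j, Finset.mem_univ j, hr⟩, h1⟩
    · have h2 : pr T Z r (y j) = 0 := by
        by_cases h3 : r.1 + r.2 = d
        · refine (mem_below T).1 (cof_below T A d hc (hσ j) (hy j)) r fun h4 => h1 ⟨h3, ?_⟩
          linarith
        · exact cof_degree T A d c _ (hy j) h3
      rw [h2]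
      exact Submodule.zero_mem _
  have h1 := card_le_of_indep (fun r : ℤ × ℤ => T.pq Z r.1 r.2) R hli hmem
  have h2 := hZ d R fun r hr => by
    rw [hR, Finset.mem_filter] at hr
    exact hr.2
  exact absurd (h1.trans h2) (Nat.not_succ_le_self b)

end Pool.Agent.U222.HC.I
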